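import Mathlib

/-!
The point-line Maker-Breaker game on the integer lattice: definitions.
-/

namespace Pool.Agent.Work.MP_a77be0_co

open Filter

/-- The inclusion of the integer lattice in the real plane. -/
def toR (P : ℤ × ℤ) : ℝ × ℝ := ((P.1 : ℝ), (P.2 : ℝ))

/-- The lattice point `X` lies on the closed straight line segment from `P` to `Q`. -/
def OnSeg (P Q X : ℤ × ℤ) : Prop := toR X ∈ segment ℝ (toR P) (toR Q)

/-- With Maker's points `M` and Breaker's points `B`, there is a winning line segment of `n`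
points: a set `S` of `n` Maker points on one straight line, with first point `P` and last point
`Q`, such that no Breaker point lies on that line between `P` and `Q`. -/
def HasWinningSegment (n : ℕ) (M B : Finset (ℤ × ℤ)) : Prop :=
  ∃ S : Finset (ℤ × ℤ), S ⊆ M ∧ S.card = n ∧
    ∃ P ∈ S, ∃ Q ∈ S, (∀ X ∈ S, OnSeg P Q X) ∧ ∀ Y ∈ B, ¬ OnSeg P Q Y

/-- `MakerForces m b n k t M B`: from the position in which Maker owns `M` and Breaker owns `B`
at the start of timestep `t`, Maker can force a winning line segment of `n` points within the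
`k` timesteps `t, t + 1, ..., t + k - 1`.  In timestep `t` Maker claims `m t` unclaimed points,
then Breaker claims `b t` unclaimed points. -/
def MakerForces (m b : ℕ → ℕ) (n : ℕ) : ℕ → ℕ → Finset (ℤ × ℤ) → Finset (ℤ × ℤ) → Prop
  | 0, _, _, _ => False
  | (k + 1), t, M, B => ∃ X : Finset (ℤ × ℤ), Disjoint X (M ∪ B) ∧ X.card = m t ∧
      (HasWinningSegment n (M ∪ X) B ∨
        ∀ Y : Finset (ℤ × ℤ), Disjoint Y (M ∪ X ∪ B) → Y.card = b t →
          MakerForces m b n k (t + 1) (M ∪ X) (B ∪ Y))

/-- `IsTau m b n T`: `T` is the earliest timestep `τ_n` by which Maker, starting from the empty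
board at timestep `1`, can guarantee to have formed a winning line segment of `n` points. -/
def IsTau (m b : ℕ → ℕ) (n T : ℕ) : Prop := IsLeast {T | MakerForces m b n T 1 ∅ ∅} T

/-- The game is a Maker win: for some `ε > 0`, `m (τ_n) < (1 - ε) n` for all large `n`. -/
def MakerWin (m b : ℕ → ℕ) : Prop :=
  ∃ ε : ℝ, 0 < ε ∧ ∀ᶠ n : ℕ in atTop, ∃ T : ℕ, IsTau m b n T ∧ (m T : ℝ) < (1 - ε) * (n : ℝ)

/-- `r` rounds the powers `t ^ a` to natural numbers, monotonically in `t`, with error less
than `1`.  Rounding down, up or to the nearest integer are examples. -/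
def Rounding (r : ℝ → ℕ → ℕ) : Prop :=
  ∀ a : ℝ, 0 ≤ a → Monotone (r a) ∧ ∀ t : ℕ, 1 ≤ t → |(r a t : ℝ) - (t : ℝ) ^ a| < 1

/-- `β_c(α)`, the supremum in `[0, ∞]` of the `β ≥ 0` for which the game with `m t = t ^ α` and
`b t = t ^ β`, rounded by `rm` and `rb`, is a Maker win. -/
noncomputable def betaC (rm rb : ℝ → ℕ → ℕ) (α : ℝ) : ENNReal :=
  sSup {x | ∃ β : ℝ, 0 ≤ β ∧ MakerWin (rm α) (rb β) ∧ x = ENNReal.ofReal β}

end Pool.Agent.Work.MP_a77be0_co
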