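import Mathlib

/-!
Abstract line geometry, clear intervals and isolation of points.
-/

namespace Pool.Agent.Work.MP_a77be0_co

open Finset Classical

/-- Axioms for a system of lines `p l : ℤ → V` used in the Breaker strategy. -/
structure Geom {V L : Type*} (p : L → ℤ → V) : Prop where
  inj : ∀ l, Function.Injective (p l)
  uniq : ∀ l l' i j i' j', i ≠ j → p l i = p l' i' → p l j = p l' j' → l = l'
  ex : ∀ x y : V, x ≠ y → ∃ l, ∃ i j, p l i = x ∧ p l j = y

variable {V L : Type*} (p : L → ℤ → V)

/-- No point of `B` between positions `i` and `j` of the line `l`. -/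
def clr (B : Finset V) (l : L) (i j : ℤ) : Prop := ∀ k ∈ Set.uIcc i j, p l k ∉ B

/-- The interval between `i` and `j` is clear and can be joined to a free point. -/
def act (M B : Finset V) (l : L) (i j : ℤ) : Prop :=
  clr p B l i j ∧ ∃ z, p l z ∉ M ∧ clr p B l i z

/-- Number of positions between `i` and `j` whose point lies in `A`. -/
noncomputable def cnt (A : Finset V) (l : L) (i j : ℤ) : ℕ :=
  ((Finset.uIcc i j).filter (fun k => p l k ∈ A)).card

variable {p}

lemma clr_symm {B : Finset V} {l : L} {i j : ℤ} (h : clr p B l i j) : clr p B l j i := by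
  intro k hk
  rw [Set.uIcc_comm] at hk
  exact h k hk

lemma clr_trans {B : Finset V} {l : L} {i j k : ℤ} (h : clr p B l i j) (h' : clr p B l j k) :
    clr p B l i k := by
  intro q hq
  rcases Set.uIcc_subset_uIcc_union_uIcc (b := j) hq with h1 | h1
  · exact h q h1
  · exact h' q h1

lemma clr_mono {B B' : Finset V} (hB : B ⊆ B') {l : L} {i j : ℤ} (h : clr p B' l i j) :
    clr p B l i j := fun k hk hkB => h k hk (hB hkB)

lemma clr_sub {B : Finset V} {l : L} {i j i' j' : ℤ} (h : clr p B l i j)
    (hi : i' ∈ Set.uIcc i j) (hj : j' ∈ Set.uIcc i j) : clr p B l i' j' :=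
  fun k hk => h k (Set.uIcc_subset_uIcc hi hj hk)

lemma clr_left {B : Finset V} {l : L} {i j : ℤ} (h : clr p B l i j) : clr p B l i i :=
  clr_sub h Set.left_mem_uIcc Set.left_mem_uIcc

lemma clr_right {B : Finset V} {l : L} {i j : ℤ} (h : clr p B l i j) : clr p B l j j :=
  clr_sub h Set.right_mem_uIcc Set.right_mem_uIcc

lemma act_mono {M M' B B' : Finset V} (hM : M ⊆ M') (hB : B ⊆ B') {l : L} {i j : ℤ}
    (h : act p M' B' l i j) : act p M B l i j := by
  obtain ⟨h1, z, hz, h2⟩ := h
  exact ⟨clr_mono hB h1, z, fun hc => hz (hM hc), clr_mono hB h2⟩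

/-- If `i' , j'` lie in a region reachable from an active interval then `[i', j']` is active. -/
lemma act_of_clr {M B : Finset V} {l : L} {i j i' j' : ℤ} (h : act p M B l i j)
    (h1 : clr p B l i i') (h2 : clr p B l i j') : act p M B l i' j' := by
  obtain ⟨_, z, hz, h3⟩ := h
  exact ⟨clr_trans (clr_symm h1) h2, z, hz, clr_trans (clr_symm h1) h3⟩

lemma cnt_union_le (A A' : Finset V) (l : L) (i j : ℤ) :
    cnt p (A ∪ A') l i j ≤ cnt p A l i j + cnt p A' l i j := by
  unfold cnt
  have : (Finset.uIcc i j).filter (fun k => p l k ∈ A ∪ A')
      = (Finset.uIcc i j).filter (fun k => p l k ∈ A) ∪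
        (Finset.uIcc i j).filter (fun k => p l k ∈ A') := by
    ext k
    simp only [mem_filter, mem_union]
    tauto
  rw [this]
  exact card_union_le _ _

lemma cnt_mono {A A' : Finset V} (h : A ⊆ A') (l : L) (i j : ℤ) :
    cnt p A l i j ≤ cnt p A' l i j := by
  unfold cnt
  apply card_le_card
  intro k hk
  simp only [mem_filter] at hk ⊢
  exact ⟨hk.1, h hk.2⟩

lemma cnt_le_card (hp : Geom p) (A : Finset V) (l : L) (i j : ℤ) : cnt p A l i j ≤ A.card := by
  unfold cnt
  apply card_le_card_of_injOn (p l)
  · intro k hk
    rw [mem_coe, mem_filter] at hk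
    exact hk.2
  · exact (hp.inj l).injOn

/-- There is a free position to the right of `k`, and all positions before it are taken. -/
lemma exists_right (hp : Geom p) (A : Finset V) (l : L) (k : ℤ) :
    ∃ r, k < r ∧ p l r ∉ A ∧ ∀ q, k < q → q < r → p l q ∈ A := by
  have hex : ∃ n : ℕ, p l (k + 1 + n) ∉ A := by
    by_contra hcon
    push Not at hcon
    have hinj : Function.Injective (fun n : ℕ => p l (k + 1 + n)) := by
      intro a b hab
      have := hp.inj l hab
      omega
    have := Set.infinite_range_of_injective hinj
    apply this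
    apply Set.Finite.subset A.finite_toSet
    rintro x ⟨n, rfl⟩
    exact hcon n
  refine ⟨k + 1 + (Nat.find hex : ℕ), by omega, Nat.find_spec hex, ?_⟩
  intro q hq1 hq2
  have hlt : (q - k - 1).toNat < Nat.find hex := by omega
  have := Nat.find_min hex hlt
  push Not at this
  have e : k + 1 + ((q - k - 1).toNat : ℤ) = q := by omega
  rwa [e] at this

lemma exists_left (hp : Geom p) (A : Finset V) (l : L) (k : ℤ) :
    ∃ r, r < k ∧ p l r ∉ A ∧ ∀ q, q < k → r < q → p l q ∈ A := by
  have hex : ∃ n : ℕ, p l (k - 1 - n) ∉ A := by
    by_contra hcon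
    push Not at hcon
    have hinj : Function.Injective (fun n : ℕ => p l (k - 1 - n)) := by
      intro a b hab
      have := hp.inj l hab
      omega
    have := Set.infinite_range_of_injective hinj
    apply this
    apply Set.Finite.subset A.finite_toSet
    rintro x ⟨n, rfl⟩
    exact hcon n
  refine ⟨k - 1 - (Nat.find hex : ℕ), by omega, Nat.find_spec hex, ?_⟩
  intro q hq1 hq2
  have hlt : (k - 1 - q).toNat < Nat.find hex := by omega
  have := Nat.find_min hex hlt
  push Not at this
  have e : k - 1 - ((k - 1 - q).toNat : ℤ) = q := by omega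
  rwa [e] at this

/-- Isolation: two free points shut off the position `k` of `l`. -/
lemma isolate (hp : Geom p) (M B : Finset V) (l : L) (k : ℤ) (hk : p l k ∈ M) :
    ∃ Y : Finset V, Y.card ≤ 2 ∧ Disjoint Y (M ∪ B) ∧
      ∀ B' : Finset V, B ∪ Y ⊆ B' → ∀ z, clr p B' l k z → p l z ∈ M := by
  obtain ⟨r, hr1, hr2, hr3⟩ := exists_right hp (M ∪ B) l k
  obtain ⟨s, hs1, hs2, hs3⟩ := exists_left hp (M ∪ B) l k
  refine ⟨{p l r, p l s}, card_le_two, ?_, ?_⟩
  · rw [disjoint_left]
    intro a ha
    simp only [mem_insert, mem_singleton] at ha
    rcases ha with rfl | rfl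
    · exact hr2
    · exact hs2
  · intro B' hB' z hz
    have hzB : p l z ∉ B := fun h => hz z Set.right_mem_uIcc (hB' (mem_union_left _ h))
    rcases lt_trichotomy z k with h | h | h
    · have hsz : s < z := by
        by_contra hcon
        push Not at hcon
        apply hz s
        · rw [Set.mem_uIcc]; right; exact ⟨hcon, hs1.le⟩
        · apply hB'; simp
      have := hs3 z h hsz
      rw [mem_union] at this
      tauto
    · rw [h]; exact hk
    · have hsz : z < r := by
        by_contra hcon
        push Not at hcon
        apply hz r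
        · rw [Set.mem_uIcc]; left; exact ⟨hr1.le, hcon⟩
        · apply hB'; simp
      have := hr3 z h hsz
      rw [mem_union] at this
      tauto

/-- An isolated position lies in no active interval. -/
lemma not_mem_of_isolated {M B' : Finset V} {l : L} {k : ℤ}
    (h : ∀ z, clr p B' l k z → p l z ∈ M) {i j : ℤ} (ha : act p M B' l i j) :
    k ∉ Set.uIcc i j := by
  intro hk
  obtain ⟨h1, z, hz, h2⟩ := ha
  apply hz
  apply h
  have h3 : clr p B' l k i := clr_sub h1 hk Set.left_mem_uIcc
  exact clr_trans h3 h2

/-! ### Hitting sets and medians of finite sets of integers -/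

lemma exists_hitting (θ : ℕ) (hθ : 1 ≤ θ) : ∀ (n : ℕ) (S : Finset ℤ), S.card = n →
    ∃ S' ⊆ S, θ * S'.card ≤ S.card ∧
      ∀ i j : ℤ, θ ≤ (S.filter (fun k => k ∈ Set.uIcc i j)).card → ∃ s ∈ S', s ∈ Set.uIcc i j := by
  intro n
  induction n using Nat.strong_induction_on with
  | _ n ih =>
    intro S hS
    by_cases hlt : S.card < θ
    · refine ⟨∅, empty_subset _, by simp, ?_⟩
      intro i j hij
      have : (S.filter (fun k => k ∈ Set.uIcc i j)).card ≤ S.card := card_filter_le _ _
      omega
    · push Not at hlt
      -- the θ-th smallest element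
      have hex : ∃ s ∈ S, θ ≤ (S.filter (fun k => k ≤ s)).card := by
        have hne : S.Nonempty := by rw [← card_pos]; omega
        refine ⟨S.max' hne, S.max'_mem hne, ?_⟩
        have : S.filter (fun k => k ≤ S.max' hne) = S := by
          apply filter_true_of_mem
          intro k hk
          exact S.le_max' k hk
        rw [this]; exact hlt
      -- take the smallest such s
      have hne2 : (S.filter (fun s => θ ≤ (S.filter (fun k => k ≤ s)).card)).Nonempty := by
        obtain ⟨s, hs, hs'⟩ := hex
        exact ⟨s, by rw [mem_filter]; exact ⟨hs, hs'⟩⟩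
      set s := (S.filter (fun s => θ ≤ (S.filter (fun k => k ≤ s)).card)).min' hne2 with hsdef
      have hsmem := (S.filter (fun s => θ ≤ (S.filter (fun k => k ≤ s)).card)).min'_mem hne2
      rw [← hsdef, mem_filter] at hsmem
      have hlow : (S.filter (fun k => k < s)).card < θ := by
        by_contra hcon
        push Not at hcon
        have hne3 : (S.filter (fun k => k < s)).Nonempty := by rw [← card_pos]; omega
        set s' := (S.filter (fun k => k < s)).max' hne3 with hs'def
        have hs'mem := (S.filter (fun k => k < s)).max'_mem hne3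
        rw [← hs'def, mem_filter] at hs'mem
        have : s ≤ s' := by
          rw [hsdef]
          apply min'_le
          rw [mem_filter]
          refine ⟨hs'mem.1, hcon.trans ?_⟩
          apply card_le_card
          intro k hk
          rw [mem_filter] at hk ⊢
          refine ⟨hk.1, ?_⟩
          rw [hs'def]
          apply le_max'
          rw [mem_filter]; exact hk
        omega
      have hsplit : S.card = (S.filter (fun k => k ≤ s)).card + (S.filter (fun k => ¬ k ≤ s)).card :=
        (card_filter_add_card_filter_not _).symm
      have hlt2 : (S.filter (fun k => ¬ k ≤ s)).card < n := by omega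
      obtain ⟨S1, hS1, hc1, hh1⟩ := ih _ hlt2 (S.filter (fun k => ¬ k ≤ s)) rfl
      refine ⟨insert s S1, ?_, ?_, ?_⟩
      · intro k hk
        rw [mem_insert] at hk
        rcases hk with rfl | hk
        · exact hsmem.1
        · exact (mem_filter.mp (hS1 hk)).1
      · have := card_insert_le s S1
        have h2 : θ * (insert s S1).card ≤ θ * (S1.card + 1) := Nat.mul_le_mul_left _ this
        have h3 := hsmem.2
        nlinarith
      · intro i j hij
        by_cases his : s ∈ Set.uIcc i j
        · exact ⟨s, mem_insert_self _ _, his⟩
        · rw [Set.mem_uIcc] at his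
          push Not at his
          by_cases hmin : s < min i j
          · have hsub : (S.filter (fun k => k ∈ Set.uIcc i j)) ⊆
                ((S.filter (fun k => ¬ k ≤ s)).filter (fun k => k ∈ Set.uIcc i j)) := by
              intro k hk
              rw [mem_filter] at hk
              rw [mem_filter, mem_filter]
              refine ⟨⟨hk.1, ?_⟩, hk.2⟩
              have h3 := hk.2
              rw [Set.mem_uIcc] at h3
              omega
            obtain ⟨s1, hs1, hs2⟩ := hh1 i j (hij.trans (card_le_card hsub))
            exact ⟨s1, mem_insert_of_mem hs1, hs2⟩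
          · exfalso
            have hmax : max i j < s := by
              rcases le_total i j with h | h
              · rw [min_eq_left h] at hmin
                rw [max_eq_right h]
                have := his.1
                omega
              · rw [min_eq_right h] at hmin
                rw [max_eq_left h]
                have := his.2
                omega
            have hsub : (S.filter (fun k => k ∈ Set.uIcc i j)) ⊆ S.filter (fun k => k < s) := by
              intro k hk
              rw [mem_filter] at hk ⊢
              refine ⟨hk.1, ?_⟩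
              have h3 := hk.2
              rw [Set.mem_uIcc] at h3
              omega
            have := card_le_card hsub
            omega

lemma exists_median (S : Finset ℤ) (hS : S.Nonempty) :
    ∃ s ∈ S, 2 * (S.filter (fun k => k < s)).card ≤ S.card ∧
      2 * (S.filter (fun k => s < k)).card ≤ S.card := by
  have hne2 : (S.filter (fun s => S.card ≤ 2 * (S.filter (fun k => k ≤ s)).card)).Nonempty := by
    refine ⟨S.max' hS, ?_⟩
    rw [mem_filter]
    refine ⟨S.max'_mem hS, ?_⟩
    have : S.filter (fun k => k ≤ S.max' hS) = S := by
      apply filter_true_of_mem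
      intro k hk
      exact S.le_max' k hk
    rw [this]; omega
  set s := (S.filter (fun s => S.card ≤ 2 * (S.filter (fun k => k ≤ s)).card)).min' hne2 with hsdef
  have hsmem := (S.filter (fun s => S.card ≤ 2 * (S.filter (fun k => k ≤ s)).card)).min'_mem hne2
  rw [← hsdef, mem_filter] at hsmem
  refine ⟨s, hsmem.1, ?_, ?_⟩
  · by_contra hcon
    push Not at hcon
    have hne3 : (S.filter (fun k => k < s)).Nonempty := by rw [← card_pos]; omega
    set s' := (S.filter (fun k => k < s)).max' hne3 with hs'def
    have hs'mem := (S.filter (fun k => k < s)).max'_mem hne3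
    rw [← hs'def, mem_filter] at hs'mem
    have : s ≤ s' := by
      rw [hsdef]
      apply min'_le
      rw [mem_filter]
      refine ⟨hs'mem.1, ?_⟩
      have hle : (S.filter (fun k => k < s)).card ≤ (S.filter (fun k => k ≤ s')).card := by
        apply card_le_card
        intro k hk
        rw [mem_filter] at hk ⊢
        refine ⟨hk.1, ?_⟩
        rw [hs'def]
        apply le_max'
        rw [mem_filter]; exact hk
      omega
    omega
  · have hsplit : S.card = (S.filter (fun k => k ≤ s)).card + (S.filter (fun k => ¬ k ≤ s)).card :=
      (card_filter_add_card_filter_not _).symm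
    have e : S.filter (fun k => ¬ k ≤ s) = S.filter (fun k => s < k) := by
      apply filter_congr
      intro k _
      exact not_le
    rw [e] at hsplit
    have := hsmem.2
    omega

end Pool.Agent.Work.MP_a77be0_co
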