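import Mathlib
import Pool.Agent.Work.MP_a77be0_co.Basic

/-!
The potential of the board intervals, Breaker's greedy points and the effect of Maker's turn.
-/

namespace Pool.Agent.Work.MP_a77be0_co

open Finset Classical

variable {V L : Type*} (p : L → ℤ → V)

/-- weight of an interval -/
noncomputable def wt (lam : ℝ) (M : Finset V) (t : L × ℤ × ℤ) : ℝ :=
  Real.exp (lam * (cnt p M t.1 t.2.1 t.2.2 : ℝ))

/-- potential of a family `J` of intervals -/
noncomputable def Phi (lam : ℝ) (M B : Finset V) (J : Finset (L × ℤ × ℤ)) : ℝ :=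
  ∑ t ∈ J.filter (fun t => act p M B t.1 t.2.1 t.2.2), wt p lam M t

/-- weight of the active intervals through a point -/
noncomputable def DD (lam : ℝ) (M B : Finset V) (J : Finset (L × ℤ × ℤ)) (x : V) : ℝ :=
  ∑ t ∈ J.filter (fun t => act p M B t.1 t.2.1 t.2.2 ∧ ∃ k ∈ Set.uIcc t.2.1 t.2.2, p t.1 k = x),
    wt p lam M t

variable {p}

lemma wt_pos (lam : ℝ) (M : Finset V) (t : L × ℤ × ℤ) : 0 < wt p lam M t := Real.exp_pos _

lemma Phi_nonneg (lam : ℝ) (M B : Finset V) (J : Finset (L × ℤ × ℤ)) : 0 ≤ Phi p lam M B J :=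
  sum_nonneg (fun _ _ => (wt_pos _ _ _).le)

lemma DD_nonneg (lam : ℝ) (M B : Finset V) (J : Finset (L × ℤ × ℤ)) (x : V) :
    0 ≤ DD p lam M B J x := sum_nonneg (fun _ _ => (wt_pos _ _ _).le)

lemma Phi_mono (lam : ℝ) (M : Finset V) {B B' : Finset V} (h : B ⊆ B') (J : Finset (L × ℤ × ℤ)) :
    Phi p lam M B' J ≤ Phi p lam M B J := by
  apply sum_le_sum_of_subset_of_nonneg
  · intro t ht
    rw [mem_filter] at ht ⊢
    exact ⟨ht.1, act_mono (Subset.refl _) h ht.2⟩
  · intro t _ _
    exact (wt_pos _ _ _).le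

lemma DD_mono (lam : ℝ) (M : Finset V) {B B' : Finset V} (h : B ⊆ B') (J : Finset (L × ℤ × ℤ))
    (x : V) : DD p lam M B' J x ≤ DD p lam M B J x := by
  apply sum_le_sum_of_subset_of_nonneg
  · intro t ht
    rw [mem_filter] at ht ⊢
    exact ⟨ht.1, act_mono (Subset.refl _) h ht.2.1, ht.2.2⟩
  · intro t _ _
    exact (wt_pos _ _ _).le

/-- Taking the point `z` kills all intervals through `z`. -/
lemma Phi_take (lam : ℝ) (M B : Finset V) (J : Finset (L × ℤ × ℤ)) (z : V) :
    Phi p lam M (insert z B) J + DD p lam M B J z ≤ Phi p lam M B J := by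
  unfold Phi DD
  rw [← sum_union]
  · apply sum_le_sum_of_subset_of_nonneg
    · intro t ht
      rw [mem_union, mem_filter, mem_filter] at ht
      rw [mem_filter]
      rcases ht with ht | ht
      · exact ⟨ht.1, act_mono (Subset.refl _) (subset_insert _ _) ht.2⟩
      · exact ⟨ht.1, ht.2.1⟩
    · intro t _ _
      exact (wt_pos _ _ _).le
  · rw [disjoint_left]
    intro t ht ht'
    rw [mem_filter] at ht ht'
    obtain ⟨-, -, k, hk, hkz⟩ := ht'
    apply ht.2.1 k hk
    rw [hkz]
    exact mem_insert_self _ _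

/-- Greedy points of Breaker. -/
lemma greedy (lam : ℝ) (M B : Finset V) (J : Finset (L × ℤ × ℤ)) (c : ℕ) :
    ∃ Y : Finset V, Disjoint Y (M ∪ B) ∧ Y.card ≤ c ∧
      ∀ z, z ∉ M → z ∉ B ∪ Y →
        Phi p lam M (B ∪ Y) J + c * DD p lam M (B ∪ Y) J z ≤ Phi p lam M B J := by
  induction c with
  | zero =>
    refine ⟨∅, disjoint_empty_left _, by simp, ?_⟩
    intro z _ _
    simp
  | succ c ih =>
    obtain ⟨Y, hY1, hY2, hY3⟩ := ih
    set Z : Finset V := (J.biUnion (fun t => (Finset.uIcc t.2.1 t.2.2).image (p t.1))) \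
      (M ∪ (B ∪ Y)) with hZ
    have hzero : ∀ z, z ∉ M → z ∉ B ∪ Y → z ∉ Z → DD p lam M (B ∪ Y) J z = 0 := by
      intro z hz1 hz2 hz3
      unfold DD
      apply sum_eq_zero
      intro t ht
      exfalso
      apply hz3
      rw [hZ, mem_sdiff, mem_biUnion]
      rw [mem_filter] at ht
      obtain ⟨htJ, -, k, hk, hkz⟩ := ht
      refine ⟨⟨t, htJ, ?_⟩, ?_⟩
      · rw [mem_image]
        refine ⟨k, ?_, hkz⟩
        rw [← Finset.mem_coe, Finset.coe_uIcc]
        exact hk
      · rw [mem_union]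
        tauto
    by_cases hne : Z.Nonempty
    · obtain ⟨z0, hz0, hmax⟩ := exists_max_image Z (fun z => DD p lam M (B ∪ Y) J z) hne
      have hz0' := hz0
      rw [hZ, mem_sdiff, mem_union] at hz0'
      push Not at hz0'
      have hins : B ∪ insert z0 Y = insert z0 (B ∪ Y) := by
        ext a; simp only [mem_union, mem_insert]; tauto
      refine ⟨insert z0 Y, ?_, ?_, ?_⟩
      · rw [disjoint_insert_left]
        refine ⟨?_, hY1⟩
        rw [mem_union]
        intro h
        rcases h with h | h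
        · exact hz0'.2.1 h
        · exact hz0'.2.2 (mem_union_left _ h)
      · have := card_insert_le z0 Y
        omega
      · intro z hz1 hz2
        rw [hins] at hz2 ⊢
        have hz2' : z ∉ B ∪ Y := fun h => hz2 (mem_insert_of_mem h)
        have h1 := Phi_take lam M (B ∪ Y) J z0 (p := p)
        have h2 := hY3 z hz1 hz2'
        have h3 : DD p lam M (insert z0 (B ∪ Y)) J z ≤ DD p lam M (B ∪ Y) J z :=
          DD_mono lam M (subset_insert _ _) J z
        have h4 : DD p lam M (B ∪ Y) J z ≤ DD p lam M (B ∪ Y) J z0 := by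
          by_cases hzZ : z ∈ Z
          · exact hmax z hzZ
          · rw [hzero z hz1 hz2' hzZ]
            exact DD_nonneg _ _ _ _ _
        have h5 : (c : ℝ) * DD p lam M (insert z0 (B ∪ Y)) J z ≤ c * DD p lam M (B ∪ Y) J z :=
          mul_le_mul_of_nonneg_left h3 (by positivity)
        push_cast
        linarith
    · refine ⟨Y, hY1, by omega, ?_⟩
      intro z hz1 hz2
      rw [not_nonempty_iff_eq_empty] at hne
      have h0 := hzero z hz1 hz2 (by rw [hne]; exact notMem_empty z)
      have := hY3 z hz1 hz2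
      rw [h0] at this ⊢
      simpa using this

lemma exp_le_one_add {x : ℝ} (h0 : 0 ≤ x) (h1 : x ≤ 1) : Real.exp x ≤ 1 + 2 * x := by
  have h := Real.exp_bound_div_one_sub_of_interval h0
  by_cases hx : x < 1 / 2
  · have h2 := h (by linarith)
    refine h2.trans ?_
    rw [div_le_iff₀ (by linarith)]
    nlinarith
  · push Not at hx
    have h3 : Real.exp x ≤ 1 + x + x ^ 2 := by
      have := Real.abs_exp_sub_one_sub_id_le (x := x) (by rw [abs_of_nonneg h0]; exact h1)
      have h4 := (abs_le.mp this).2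
      linarith
    nlinarith

/-- Effect of Maker's turn on the potential. -/
lemma Phi_maker (hp : Geom p) (lam : ℝ) (hlam : 0 ≤ lam) (θ : ℕ) (hθ : lam * θ ≤ 1)
    (M B B1 X : Finset V) (J : Finset (L × ℤ × ℤ)) (hB : B ⊆ B1)
    (hX : ∀ l i j, act p (M ∪ X) B1 l i j → cnt p X l i j < θ) :
    Phi p lam (M ∪ X) B1 J ≤ Phi p lam M B J + 2 * lam * ∑ x ∈ X, DD p lam M B J x := by
  have h1 : Phi p lam (M ∪ X) B1 J ≤
      ∑ t ∈ J.filter (fun t => act p M B t.1 t.2.1 t.2.2),
        wt p lam M t * (1 + 2 * lam * (cnt p X t.1 t.2.1 t.2.2 : ℝ)) := by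
    unfold Phi
    calc ∑ t ∈ J.filter (fun t => act p (M ∪ X) B1 t.1 t.2.1 t.2.2), wt p lam (M ∪ X) t
        ≤ ∑ t ∈ J.filter (fun t => act p (M ∪ X) B1 t.1 t.2.1 t.2.2),
          wt p lam M t * (1 + 2 * lam * (cnt p X t.1 t.2.1 t.2.2 : ℝ)) := by
          apply sum_le_sum
          intro t ht
          rw [mem_filter] at ht
          have hc := hX _ _ _ ht.2
          have hcR : (cnt p X t.1 t.2.1 t.2.2 : ℝ) ≤ θ := by exact_mod_cast hc.le
          unfold wt
          have h2 : (cnt p (M ∪ X) t.1 t.2.1 t.2.2 : ℝ) ≤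
              (cnt p M t.1 t.2.1 t.2.2 : ℝ) + (cnt p X t.1 t.2.1 t.2.2 : ℝ) := by
            exact_mod_cast cnt_union_le M X t.1 t.2.1 t.2.2
          have h3 : 0 ≤ lam * (cnt p X t.1 t.2.1 t.2.2 : ℝ) := by positivity
          have h4 : lam * (cnt p X t.1 t.2.1 t.2.2 : ℝ) ≤ 1 :=
            (mul_le_mul_of_nonneg_left hcR hlam).trans hθ
          calc Real.exp (lam * (cnt p (M ∪ X) t.1 t.2.1 t.2.2 : ℝ))
              ≤ Real.exp (lam * (cnt p M t.1 t.2.1 t.2.2 : ℝ) +
                  lam * (cnt p X t.1 t.2.1 t.2.2 : ℝ)) := by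
                apply Real.exp_le_exp.mpr
                rw [← mul_add]
                exact mul_le_mul_of_nonneg_left h2 hlam
            _ = Real.exp (lam * (cnt p M t.1 t.2.1 t.2.2 : ℝ)) *
                  Real.exp (lam * (cnt p X t.1 t.2.1 t.2.2 : ℝ)) := Real.exp_add _ _
            _ ≤ Real.exp (lam * (cnt p M t.1 t.2.1 t.2.2 : ℝ)) *
                  (1 + 2 * lam * (cnt p X t.1 t.2.1 t.2.2 : ℝ)) := by
                apply mul_le_mul_of_nonneg_left _ (Real.exp_pos _).le
                have := exp_le_one_add h3 h4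
                linarith
      _ ≤ _ := by
          apply sum_le_sum_of_subset_of_nonneg
          · intro t ht
            rw [mem_filter] at ht ⊢
            exact ⟨ht.1, act_mono subset_union_left hB ht.2⟩
          · intro t _ _
            have := wt_pos (p := p) lam M t
            positivity
  refine h1.trans ?_
  have h2 : ∑ t ∈ J.filter (fun t => act p M B t.1 t.2.1 t.2.2),
        wt p lam M t * (1 + 2 * lam * (cnt p X t.1 t.2.1 t.2.2 : ℝ)) = Phi p lam M B J +
      2 * lam * ∑ t ∈ J.filter (fun t => act p M B t.1 t.2.1 t.2.2),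
        wt p lam M t * (cnt p X t.1 t.2.1 t.2.2 : ℝ) := by
    unfold Phi
    rw [mul_sum, ← sum_add_distrib]
    apply sum_congr rfl
    intro t _
    ring
  rw [h2]
  apply add_le_add le_rfl
  apply mul_le_mul_of_nonneg_left _ (by positivity)
  -- double counting
  have h3 : ∀ t : L × ℤ × ℤ, (cnt p X t.1 t.2.1 t.2.2 : ℝ) ≤
      ∑ x ∈ X, if (∃ k ∈ Set.uIcc t.2.1 t.2.2, p t.1 k = x) then (1 : ℝ) else 0 := by
    intro t
    rw [← sum_filter, sum_const, nsmul_eq_mul, mul_one]
    have : cnt p X t.1 t.2.1 t.2.2 ≤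
        (X.filter (fun x => ∃ k ∈ Set.uIcc t.2.1 t.2.2, p t.1 k = x)).card := by
      unfold cnt
      apply card_le_card_of_injOn (p t.1)
      · intro k hk
        rw [mem_coe, mem_filter] at hk
        rw [mem_coe, mem_filter]
        refine ⟨hk.2, k, ?_, rfl⟩
        have := hk.1
        rw [← Finset.mem_coe, Finset.coe_uIcc] at this
        exact this
      · exact (hp.inj t.1).injOn
    exact_mod_cast this
  calc ∑ t ∈ J.filter (fun t => act p M B t.1 t.2.1 t.2.2),
        wt p lam M t * (cnt p X t.1 t.2.1 t.2.2 : ℝ)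
      ≤ ∑ t ∈ J.filter (fun t => act p M B t.1 t.2.1 t.2.2),
        ∑ x ∈ X, (if (∃ k ∈ Set.uIcc t.2.1 t.2.2, p t.1 k = x) then wt p lam M t else 0) := by
        apply sum_le_sum
        intro t _
        calc wt p lam M t * (cnt p X t.1 t.2.1 t.2.2 : ℝ)
            ≤ wt p lam M t * ∑ x ∈ X,
              (if (∃ k ∈ Set.uIcc t.2.1 t.2.2, p t.1 k = x) then (1 : ℝ) else 0) :=
              mul_le_mul_of_nonneg_left (h3 t) (wt_pos _ _ _).le
          _ = _ := by
              rw [mul_sum]
              apply sum_congr rfl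
              intro x _
              split_ifs <;> simp
    _ = ∑ x ∈ X, DD p lam M B J x := by
        rw [sum_comm]
        apply sum_congr rfl
        intro x _
        unfold DD
        rw [← sum_filter, filter_filter]

end Pool.Agent.Work.MP_a77be0_co
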