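import Mathlib
import Pool.Agent.Work.MP_a77be0_co.PhiPot

/-!
The potential of the recorded points on single lines, and the isolation of medians.
-/

namespace Pool.Agent.Work.MP_a77be0_co

open Finset Classical

variable {V L : Type*} (p : L → ℤ → V)

/-- number of recorded positions on `l` reachable from `k` -/
noncomputable def hh (B : Finset V) (R : Finset (L × ℤ)) (l : L) (k : ℤ) : ℕ :=
  (R.filter (fun r => r.1 = l ∧ clr p B l k r.2)).card

/-- potential of the recorded positions -/
noncomputable def Psi (lam : ℝ) (M B : Finset V) (R : Finset (L × ℤ)) : ℝ :=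
  ∑ r ∈ R.filter (fun r => act p M B r.1 r.2 r.2), Real.exp (lam * (hh p B R r.1 r.2 : ℝ))

variable {p}

lemma Psi_nonneg (lam : ℝ) (M B : Finset V) (R : Finset (L × ℤ)) : 0 ≤ Psi p lam M B R :=
  sum_nonneg (fun _ _ => (Real.exp_pos _).le)

lemma hh_mono {B B' : Finset V} (h : B ⊆ B') (R : Finset (L × ℤ)) (l : L) (k : ℤ) :
    hh p B' R l k ≤ hh p B R l k := by
  unfold hh
  apply card_le_card
  intro r hr
  rw [mem_filter] at hr ⊢
  exact ⟨hr.1, hr.2.1, clr_mono h hr.2.2⟩

lemma hh_le_card (B : Finset V) (R : Finset (L × ℤ)) (l : L) (k : ℤ) :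
    hh p B R l k ≤ R.card := card_filter_le _ _

lemma Psi_mono {lam : ℝ} (hlam : 0 ≤ lam) (M : Finset V) {B B' : Finset V} (h : B ⊆ B')
    (R : Finset (L × ℤ)) : Psi p lam M B' R ≤ Psi p lam M B R := by
  unfold Psi
  calc _ ≤ ∑ r ∈ R.filter (fun r => act p M B' r.1 r.2 r.2),
        Real.exp (lam * (hh p B R r.1 r.2 : ℝ)) := by
        apply sum_le_sum
        intro r _
        apply Real.exp_le_exp.mpr
        apply mul_le_mul_of_nonneg_left _ hlam
        exact_mod_cast hh_mono h R r.1 r.2
    _ ≤ _ := by
        apply sum_le_sum_of_subset_of_nonneg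
        · intro t ht
          rw [mem_filter] at ht ⊢
          exact ⟨ht.1, act_mono (Subset.refl _) h ht.2⟩
        · intro t _ _
          exact (Real.exp_pos _).le

/-- weight of the component in which a new recorded point would lie -/
noncomputable def GG (p : L → ℤ → V) (lam : ℝ) (B : Finset V) (R : Finset (L × ℤ)) (l : L)
    (k : ℤ) : ℝ := (hh p B R l k : ℝ) * Real.exp (lam * (hh p B R l k : ℝ))

lemma GG_nonneg (lam : ℝ) (B : Finset V) (R : Finset (L × ℤ)) (l : L) (k : ℤ) :
    0 ≤ GG p lam B R l k := mul_nonneg (by positivity) (Real.exp_pos _).le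

lemma mul_exp_mono {lam : ℝ} (hlam : 0 ≤ lam) {a b : ℕ} (h : a ≤ b) :
    (a : ℝ) * Real.exp (lam * a) ≤ (b : ℝ) * Real.exp (lam * b) := by
  have h1 : (a : ℝ) ≤ b := by exact_mod_cast h
  apply mul_le_mul h1 _ (Real.exp_pos _).le (by positivity)
  apply Real.exp_le_exp.mpr
  exact mul_le_mul_of_nonneg_left h1 hlam

lemma GG_mono {lam : ℝ} (hlam : 0 ≤ lam) {B B' : Finset V} (h : B ⊆ B') (R : Finset (L × ℤ))
    (l : L) (k : ℤ) : GG p lam B' R l k ≤ GG p lam B R l k :=
  mul_exp_mono hlam (hh_mono h R l k)

/-- threshold of the component weights -/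
noncomputable def G0 (lam : ℝ) : ℝ := 2 / lam * Real.exp 2

/-- One isolation of a median halves the heaviest component. -/
lemma isolate_median (hp : Geom p) {lam : ℝ} (hlam : 0 < lam) (M B : Finset V)
    (R : Finset (L × ℤ)) (hR : ∀ r ∈ R, p r.1 r.2 ∈ M) (l : L) (k : ℤ)
    (hk1 : p l k ∉ M) (hG : G0 lam < GG p lam B R l k) :
    ∃ Y : Finset V, Y.card ≤ 2 ∧ Disjoint Y (M ∪ B) ∧
      Psi p lam M (B ∪ Y) R + GG p lam B R l k / 2 ≤ Psi p lam M B R := by
  set v := hh p B R l k with hv
  set C := R.filter (fun r => r.1 = l ∧ clr p B l k r.2) with hC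
  have hCv : C.card = v := rfl
  -- lam * v ≥ 2
  have hlv : 2 ≤ lam * v := by
    by_contra hcon
    push Not at hcon
    have h1 : (v : ℝ) < 2 / lam := by rw [lt_div_iff₀ hlam]; linarith
    have h2 : GG p lam B R l k ≤ G0 lam := by
      unfold GG G0
      rw [← hv]
      apply mul_le_mul h1.le _ (Real.exp_pos _).le (by positivity)
      apply Real.exp_le_exp.mpr
      exact hcon.le
    linarith
  have hvpos : 0 < v := by
    rcases Nat.eq_zero_or_pos v with h | h
    · rw [h] at hlv; norm_num at hlv
    · exact h
  set S : Finset ℤ := C.image (fun r => r.2) with hS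
  have hinjS : Set.InjOn (fun r : L × ℤ => r.2) C := by
    intro r hr r' hr' h
    rw [hC, mem_coe, mem_filter] at hr hr'
    exact Prod.ext (hr.2.1.trans hr'.2.1.symm) h
  have hScard : S.card = v := by
    rw [hS, card_image_of_injOn hinjS, hCv]
  have hSne : S.Nonempty := by rw [← card_pos, hScard]; exact hvpos
  obtain ⟨s, hsS, hs1, hs2⟩ := exists_median S hSne
  have hsC : (l, s) ∈ C := by
    rw [hS, mem_image] at hsS
    obtain ⟨r, hr, hrs⟩ := hsS
    have hr' := hr
    rw [hC, mem_filter] at hr'
    have : r = (l, s) := Prod.ext hr'.2.1 hrs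
    rwa [this] at hr
  have hsC' := hsC
  rw [hC, mem_filter] at hsC'
  obtain ⟨Y, hY1, hY2, hY3⟩ := isolate hp M B l s (hR _ hsC'.1)
  refine ⟨Y, hY1, hY2, ?_⟩
  have hiso := hY3 (B ∪ Y) (Subset.refl _)
  have hBY : B ⊆ B ∪ Y := subset_union_left
  -- the new potential
  have hnew : Psi p lam M (B ∪ Y) R ≤
      ∑ r ∈ (R.filter (fun r => act p M B r.1 r.2 r.2)) \ C,
        Real.exp (lam * (hh p B R r.1 r.2 : ℝ)) + v * Real.exp (lam * v / 2) := by
    unfold Psi
    rw [← sum_filter_add_sum_filter_not (R.filter (fun r => act p M (B ∪ Y) r.1 r.2 r.2))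
      (fun r => r ∉ C)]
    apply add_le_add
    · calc _ ≤ ∑ r ∈ (R.filter (fun r => act p M (B ∪ Y) r.1 r.2 r.2)).filter (fun r => r ∉ C),
            Real.exp (lam * (hh p B R r.1 r.2 : ℝ)) := by
            apply sum_le_sum
            intro r _
            apply Real.exp_le_exp.mpr
            apply mul_le_mul_of_nonneg_left _ hlam.le
            exact_mod_cast hh_mono hBY R r.1 r.2
        _ ≤ _ := by
            apply sum_le_sum_of_subset_of_nonneg
            · intro r hr
              rw [mem_filter, mem_filter] at hr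
              rw [mem_sdiff, mem_filter]
              exact ⟨⟨hr.1.1, act_mono (Subset.refl _) hBY hr.1.2⟩, hr.2⟩
            · intro r _ _
              exact (Real.exp_pos _).le
    · calc _ ≤ ∑ r ∈ (R.filter (fun r => act p M (B ∪ Y) r.1 r.2 r.2)).filter (fun r => ¬ r ∉ C),
            Real.exp (lam * v / 2) := by
            apply sum_le_sum
            intro r hr
            rw [mem_filter, mem_filter] at hr
            obtain ⟨⟨hrR, hract⟩, hrC⟩ := hr
            rw [not_not] at hrC
            have hrC' := hrC
            rw [hC, mem_filter] at hrC'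
            apply Real.exp_le_exp.mpr
            rw [mul_div_assoc]
            apply mul_le_mul_of_nonneg_left _ hlam.le
            -- reachable records from r are on one side of s
            have hrl : r.1 = l := hrC'.2.1
            rw [hrl] at hract ⊢
            have hkey : ∀ r' ∈ R, r'.1 = l → clr p (B ∪ Y) l r.2 r'.2 →
                r' ∈ C ∧ s ∉ Set.uIcc r.2 r'.2 := by
              intro r' hr' hr'l hclr
              constructor
              · rw [hC, mem_filter]
                exact ⟨hr', hr'l, clr_trans hrC'.2.2 (clr_mono hBY hclr)⟩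
              · have hact' : act p M (B ∪ Y) l r.2 r'.2 :=
                  act_of_clr hract (clr_left hclr) hclr
                exact not_mem_of_isolated hiso hact'
            have hrs : r.2 ≠ s := by
              intro h
              have := (not_mem_of_isolated hiso hract)
              apply this
              rw [h]; exact Set.left_mem_uIcc
            have hcard : 2 * hh p (B ∪ Y) R l r.2 ≤ v := by
              rcases lt_or_gt_of_ne hrs with hlt | hgt
              · have : hh p (B ∪ Y) R l r.2 ≤ (S.filter (fun k => k < s)).card := by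
                  unfold hh
                  apply card_le_card_of_injOn (fun r : L × ℤ => r.2)
                  · intro r' hr'
                    rw [mem_coe, mem_filter] at hr'
                    obtain ⟨h1, h2⟩ := hkey r' hr'.1 hr'.2.1 hr'.2.2
                    rw [mem_coe, mem_filter]
                    refine ⟨mem_image_of_mem _ h1, ?_⟩
                    rw [Set.mem_uIcc] at h2
                    simp only
                    omega
                  · intro r' hr' r'' hr'' h
                    rw [mem_coe, mem_filter] at hr' hr''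
                    exact Prod.ext (hr'.2.1.trans hr''.2.1.symm) h
                omega
              · have : hh p (B ∪ Y) R l r.2 ≤ (S.filter (fun k => s < k)).card := by
                  unfold hh
                  apply card_le_card_of_injOn (fun r : L × ℤ => r.2)
                  · intro r' hr'
                    rw [mem_coe, mem_filter] at hr'
                    obtain ⟨h1, h2⟩ := hkey r' hr'.1 hr'.2.1 hr'.2.2
                    rw [mem_coe, mem_filter]
                    refine ⟨mem_image_of_mem _ h1, ?_⟩
                    rw [Set.mem_uIcc] at h2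
                    simp only
                    omega
                  · intro r' hr' r'' hr'' h
                    rw [mem_coe, mem_filter] at hr' hr''
                    exact Prod.ext (hr'.2.1.trans hr''.2.1.symm) h
                omega
            have : (2 : ℝ) * (hh p (B ∪ Y) R l r.2 : ℝ) ≤ v := by exact_mod_cast hcard
            linarith
        _ ≤ ∑ r ∈ C, Real.exp (lam * v / 2) := by
            apply sum_le_sum_of_subset_of_nonneg
            · intro r hr
              rw [mem_filter, not_not] at hr
              exact hr.2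
            · intro r _ _
              exact (Real.exp_pos _).le
        _ = v * Real.exp (lam * v / 2) := by
            rw [sum_const, nsmul_eq_mul, hCv]
  -- the old potential
  have hsubC : C ⊆ R.filter (fun r => act p M B r.1 r.2 r.2) := by
    intro r hr
    rw [hC, mem_filter] at hr
    rw [mem_filter]
    refine ⟨hr.1, ?_⟩
    rw [hr.2.1]
    exact ⟨clr_right hr.2.2, k, hk1, clr_symm hr.2.2⟩
  have hold : Psi p lam M B R =
      ∑ r ∈ (R.filter (fun r => act p M B r.1 r.2 r.2)) \ C,
        Real.exp (lam * (hh p B R r.1 r.2 : ℝ)) + v * Real.exp (lam * v) := by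
    unfold Psi
    rw [← sum_sdiff hsubC]
    congr 1
    have : ∀ r ∈ C, Real.exp (lam * (hh p B R r.1 r.2 : ℝ)) = Real.exp (lam * v) := by
      intro r hr
      rw [hC, mem_filter] at hr
      have : hh p B R r.1 r.2 = v := by
        rw [hv, hr.2.1]
        unfold hh
        congr 1
        apply filter_congr
        intro r' _
        constructor
        · rintro ⟨h1, h2⟩
          exact ⟨h1, clr_trans hr.2.2 h2⟩
        · rintro ⟨h1, h2⟩
          exact ⟨h1, clr_trans (clr_symm hr.2.2) h2⟩
      rw [this]
    rw [sum_congr rfl this, sum_const, nsmul_eq_mul, hCv]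
  have hexp : 2 * Real.exp (lam * v / 2) ≤ Real.exp (lam * v) := by
    have e : Real.exp (lam * v) = Real.exp (lam * v / 2) * Real.exp (lam * v / 2) := by
      rw [← Real.exp_add]; congr 1; ring
    rw [e]
    apply mul_le_mul_of_nonneg_right _ (Real.exp_pos _).le
    have := Real.add_one_le_exp (lam * v / 2)
    linarith
  have hGG : GG p lam B R l k = v * Real.exp (lam * v) := rfl
  rw [hGG, hold]
  have hv0 : (0 : ℝ) ≤ v := by positivity
  nlinarith

/-- Breaker's treatment of the heaviest components. -/
lemma treat (hp : Geom p) {lam : ℝ} (hlam : 0 < lam) (M B : Finset V)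
    (R : Finset (L × ℤ)) (hR : ∀ r ∈ R, p r.1 r.2 ∈ M) (c : ℕ) :
    ∃ Y : Finset V, Disjoint Y (M ∪ B) ∧ Y.card ≤ 2 * c ∧
      ∀ l k, p l k ∉ M → p l k ∉ B ∪ Y →
        Psi p lam M (B ∪ Y) R + (c : ℝ) / 2 * (GG p lam (B ∪ Y) R l k - G0 lam) ≤
          Psi p lam M B R := by
  have hG0 : 0 ≤ G0 lam := by unfold G0; positivity
  induction c with
  | zero =>
    refine ⟨∅, disjoint_empty_left _, by simp, ?_⟩
    intro l k _ _
    simp
  | succ c ih =>
    obtain ⟨Y, hY1, hY2, hY3⟩ := ih
    by_cases hall : ∀ l k, p l k ∉ M → p l k ∉ B ∪ Y → GG p lam (B ∪ Y) R l k ≤ G0 lam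
    · refine ⟨Y, hY1, by omega, ?_⟩
      intro l k h1 h2
      have h3 := hall l k h1 h2
      have h4 := Psi_mono hlam.le M (subset_union_left : B ⊆ B ∪ Y) R (p := p)
      have h5 : ((c + 1 : ℕ) : ℝ) / 2 * (GG p lam (B ∪ Y) R l k - G0 lam) ≤ 0 := by
        apply mul_nonpos_of_nonneg_of_nonpos (by positivity)
        linarith
      linarith
    · push Not at hall
      -- a free position with the maximal component
      have hset : ({v : ℕ | ∃ l k, p l k ∉ M ∧ p l k ∉ B ∪ Y ∧ hh p (B ∪ Y) R l k = v}).Nonempty := by
        obtain ⟨l, k, h1, h2, -⟩ := hall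
        exact ⟨_, l, k, h1, h2, rfl⟩
      have hbdd : BddAbove {v : ℕ | ∃ l k, p l k ∉ M ∧ p l k ∉ B ∪ Y ∧ hh p (B ∪ Y) R l k = v} := by
        refine ⟨R.card, ?_⟩
        rintro v ⟨l, k, -, -, rfl⟩
        exact hh_le_card _ _ _ _
      obtain ⟨l0, k0, h01, h02, h03⟩ := Nat.sSup_mem hset hbdd
      have hmax : ∀ l k, p l k ∉ M → p l k ∉ B ∪ Y →
          GG p lam (B ∪ Y) R l k ≤ GG p lam (B ∪ Y) R l0 k0 := by
        intro l k h1 h2
        apply mul_exp_mono hlam.le
        rw [h03]
        exact le_csSup hbdd ⟨l, k, h1, h2, rfl⟩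
      have hbig : G0 lam < GG p lam (B ∪ Y) R l0 k0 := by
        obtain ⟨l, k, h1, h2, h3⟩ := hall
        exact lt_of_lt_of_le h3 (hmax l k h1 h2)
      obtain ⟨Y2, hY21, hY22, hY23⟩ := isolate_median hp hlam M (B ∪ Y) R hR l0 k0 h01 hbig
      have hass : B ∪ (Y ∪ Y2) = B ∪ Y ∪ Y2 := by rw [union_assoc]
      refine ⟨Y ∪ Y2, ?_, ?_, ?_⟩
      · rw [disjoint_union_left]
        refine ⟨hY1, ?_⟩
        apply disjoint_of_subset_right _ hY22
        apply union_subset_union (Subset.refl _)
        exact subset_union_left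
      · have := card_union_le Y Y2
        omega
      · intro l k h1 h2
        rw [hass] at h2 ⊢
        have h2' : p l k ∉ B ∪ Y := fun h => h2 (mem_union_left _ h)
        have h3 := hY3 l k h1 h2'
        have h4 : GG p lam (B ∪ Y ∪ Y2) R l k ≤ GG p lam (B ∪ Y) R l k :=
          GG_mono hlam.le subset_union_left R l k
        have h5 := hmax l k h1 h2'
        have h6 : (c : ℝ) / 2 * (GG p lam (B ∪ Y ∪ Y2) R l k - G0 lam) ≤
            (c : ℝ) / 2 * (GG p lam (B ∪ Y) R l k - G0 lam) :=
          mul_le_mul_of_nonneg_left (by linarith) (by positivity)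
        push_cast
        nlinarith

end Pool.Agent.Work.MP_a77be0_co
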