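import Mathlib
import Pool.Agent.Work.MP_a77be0_co.PsiPot

/-!
Known lines, the treatment of lines receiving many points in one turn, and the effect of
Maker's turn on the second potential.
-/

namespace Pool.Agent.Work.MP_a77be0_co

open Finset Classical

variable {V L : Type*} {p : L → ℤ → V}

/-- The lines containing at least two points of `M`. -/
noncomputable def lns (hp : Geom p) (M : Finset V) : Finset L :=
  M.offDiag.attach.image (fun xy => Classical.choose (hp.ex xy.1.1 xy.1.2 (by
    have := xy.2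
    rw [mem_offDiag] at this
    exact this.2.2)))

lemma mem_lns (hp : Geom p) (M : Finset V) (l : L) :
    l ∈ lns hp M ↔ ∃ i j, i ≠ j ∧ p l i ∈ M ∧ p l j ∈ M := by
  unfold lns
  rw [mem_image]
  constructor
  · rintro ⟨⟨⟨x, y⟩, hxy⟩, -, rfl⟩
    have hxy' := hxy
    rw [mem_offDiag] at hxy'
    obtain ⟨i, j, hi, hj⟩ := Classical.choose_spec (hp.ex x y hxy'.2.2)
    refine ⟨i, j, ?_, ?_, ?_⟩
    · rintro rfl
      apply hxy'.2.2
      exact hi.symm.trans hj
    · change p (Classical.choose (hp.ex x y hxy'.2.2)) i ∈ M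
      rw [hi]; exact hxy'.1
    · change p (Classical.choose (hp.ex x y hxy'.2.2)) j ∈ M
      rw [hj]; exact hxy'.2.1
  · rintro ⟨i, j, hij, hi, hj⟩
    have hne : p l i ≠ p l j := fun h => hij (hp.inj l h)
    have hmem : (p l i, p l j) ∈ M.offDiag := by
      rw [mem_offDiag]; exact ⟨hi, hj, hne⟩
    refine ⟨⟨(p l i, p l j), hmem⟩, mem_attach _ _, ?_⟩
    obtain ⟨i', j', hi', hj'⟩ := Classical.choose_spec (hp.ex (p l i) (p l j) hne)
    exact (hp.uniq l _ i j i' j' hij hi'.symm hj'.symm).symm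

lemma card_lns (hp : Geom p) (M : Finset V) : (lns hp M).card ≤ M.card ^ 2 := by
  unfold lns
  refine card_image_le.trans ?_
  rw [card_attach, offDiag_card, sq]
  exact Nat.sub_le _ _

lemma lns_mono (hp : Geom p) {M M' : Finset V} (h : M ⊆ M') : lns hp M ⊆ lns hp M' := by
  intro l hl
  rw [mem_lns] at hl ⊢
  obtain ⟨i, j, hij, hi, hj⟩ := hl
  exact ⟨i, j, hij, h hi, h hj⟩

lemma sum_pairs_le (hp : Geom p) (X : Finset V) (K : Finset L) :
    ∑ l ∈ K, ((X.preimage (p l) (hp.inj l).injOn).card *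
      ((X.preimage (p l) (hp.inj l).injOn).card - 1)) ≤ X.card ^ 2 := by
  have h1 : ∀ l, (X.preimage (p l) (hp.inj l).injOn).card *
      ((X.preimage (p l) (hp.inj l).injOn).card - 1) =
      (X.preimage (p l) (hp.inj l).injOn).offDiag.card := by
    intro l
    rw [offDiag_card, Nat.mul_sub, mul_one]
  simp_rw [h1]
  rw [← card_sigma]
  have h2 : X.offDiag.card ≤ X.card ^ 2 := by
    rw [offDiag_card, sq]
    exact Nat.sub_le _ _
  refine le_trans ?_ h2
  apply card_le_card_of_injOn (fun t : Σ _ : L, ℤ × ℤ => (p t.1 t.2.1, p t.1 t.2.2))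
  · rintro ⟨l, i, j⟩ ht
    rw [mem_coe, mem_sigma, mem_offDiag, mem_preimage, mem_preimage] at ht
    rw [mem_coe, mem_offDiag]
    exact ⟨ht.2.1, ht.2.2.1, fun h => ht.2.2.2 (hp.inj l h)⟩
  · rintro ⟨l, i, j⟩ ht ⟨l', i', j'⟩ ht' heq
    rw [mem_coe, mem_sigma, mem_offDiag, mem_preimage, mem_preimage] at ht ht'
    simp only [Prod.mk.injEq] at heq
    have hl : l = l' := hp.uniq l l' i j i' j' ht.2.2.2 heq.1 heq.2
    subst hl
    have e1 := hp.inj l heq.1
    have e2 := hp.inj l heq.2
    change i = i' at e1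
    change j = j' at e2
    rw [e1, e2]

/-- Treatment of the lines that received many points of `X`. -/
lemma burst (hp : Geom p) (M B X : Finset V) (hXM : X ⊆ M) (θ : ℕ) (hθ : 2 ≤ θ) :
    ∃ Y : Finset V, Disjoint Y (M ∪ B) ∧ θ * (θ - 1) * Y.card ≤ 2 * X.card ^ 2 ∧
      ∀ B', B ∪ Y ⊆ B' → ∀ l i j, act p M B' l i j → cnt p X l i j < θ := by
  set S : L → Finset ℤ := fun l => X.preimage (p l) (hp.inj l).injOn with hS
  have hhit := fun l => exists_hitting θ (by omega) _ (S l) rfl
  choose S' hS'1 hS'2 hS'3 using hhit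
  have hpM : ∀ l, ∀ s ∈ S' l, p l s ∈ M := by
    intro l s hs
    apply hXM
    have := hS'1 l hs
    rw [hS, mem_preimage] at this
    exact this
  have hiso : ∀ l, ∀ s, ∃ Y : Finset V, Y.card ≤ 2 ∧ Disjoint Y (M ∪ B) ∧
      (s ∈ S' l → ∀ B' : Finset V, B ∪ Y ⊆ B' → ∀ z, clr p B' l s z → p l z ∈ M) := by
    intro l s
    by_cases hs : s ∈ S' l
    · obtain ⟨Y, h1, h2, h3⟩ := isolate hp M B l s (hpM l s hs)
      exact ⟨Y, h1, h2, fun _ => h3⟩
    · exact ⟨∅, by simp, disjoint_empty_left _, fun h => absurd h hs⟩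
  choose Yf hY1 hY2 hY3 using hiso
  refine ⟨(lns hp X).biUnion (fun l => (S' l).biUnion (fun s => Yf l s)), ?_, ?_, ?_⟩
  · rw [disjoint_biUnion_left]
    intro l _
    rw [disjoint_biUnion_left]
    intro s _
    exact hY2 l s
  · have hc1 : ((lns hp X).biUnion (fun l => (S' l).biUnion (fun s => Yf l s))).card ≤
        ∑ l ∈ lns hp X, 2 * (S' l).card := by
      refine card_biUnion_le.trans ?_
      apply sum_le_sum
      intro l _
      refine card_biUnion_le.trans ?_
      calc ∑ s ∈ S' l, (Yf l s).card ≤ ∑ _s ∈ S' l, 2 := sum_le_sum (fun s _ => hY1 l s)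
        _ = 2 * (S' l).card := by rw [sum_const, smul_eq_mul, mul_comm]
    calc θ * (θ - 1) * ((lns hp X).biUnion (fun l => (S' l).biUnion (fun s => Yf l s))).card
        ≤ θ * (θ - 1) * ∑ l ∈ lns hp X, 2 * (S' l).card := Nat.mul_le_mul_left _ hc1
      _ = 2 * ∑ l ∈ lns hp X, (θ * (θ - 1) * (S' l).card) := by
          rw [mul_sum, mul_sum]
          apply sum_congr rfl
          intro l _
          ring
      _ ≤ 2 * ∑ l ∈ lns hp X, ((S l).card * ((S l).card - 1)) := by
          apply Nat.mul_le_mul_left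
          apply sum_le_sum
          intro l _
          have h2 := hS'2 l
          by_cases hlt : (S l).card < θ
          · have : (S' l).card = 0 := by
              by_contra hne
              have : 1 ≤ (S' l).card := Nat.one_le_iff_ne_zero.mpr hne
              have : θ * 1 ≤ θ * (S' l).card := Nat.mul_le_mul_left _ this
              omega
            rw [this]; simp
          · push Not at hlt
            calc θ * (θ - 1) * (S' l).card = (θ * (S' l).card) * (θ - 1) := by ring
              _ ≤ (S l).card * (θ - 1) := Nat.mul_le_mul_right _ h2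
              _ ≤ (S l).card * ((S l).card - 1) := Nat.mul_le_mul_left _ (by omega)
      _ ≤ 2 * X.card ^ 2 := Nat.mul_le_mul_left _ (sum_pairs_le hp X _)
  · intro B' hB' l i j hact
    by_contra hcon
    push Not at hcon
    have hcnt : cnt p X l i j = ((S l).filter (fun k => k ∈ Set.uIcc i j)).card := by
      unfold cnt
      congr 1
      ext k
      rw [mem_filter, mem_filter, hS, mem_preimage, ← Finset.mem_coe, Finset.coe_uIcc]
      tauto
    have hl : l ∈ lns hp X := by
      rw [mem_lns]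
      have h2 : 1 < ((S l).filter (fun k => k ∈ Set.uIcc i j)).card := by omega
      obtain ⟨a, ha, b, hb, hab⟩ := one_lt_card.mp h2
      rw [mem_filter, hS, mem_preimage] at ha hb
      exact ⟨a, b, hab, ha.1, hb.1⟩
    obtain ⟨s, hs, hsij⟩ := hS'3 l i j (by omega)
    have hiso := hY3 l s hs B' (by
      refine Subset.trans ?_ hB'
      apply union_subset_union (Subset.refl _)
      intro y hy
      rw [mem_biUnion]
      refine ⟨l, hl, ?_⟩
      rw [mem_biUnion]
      exact ⟨s, hs, hy⟩)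
    exact not_mem_of_isolated hiso hact hsij

/-- few new records are reachable from an active position -/
lemma hh_new_lt (θ : ℕ) (hθ : 1 ≤ θ) (M X B1 : Finset V) (Rn : Finset (L × ℤ))
    (hRn : ∀ r ∈ Rn, p r.1 r.2 ∈ X)
    (hX : ∀ l i j, act p (M ∪ X) B1 l i j → cnt p X l i j < θ) (l : L) (k : ℤ)
    (h : act p (M ∪ X) B1 l k k) : hh p B1 Rn l k < θ := by
  set A : Finset ℤ := (Rn.filter (fun r => r.1 = l ∧ clr p B1 l k r.2)).image (fun r => r.2) with hA
  have hAcard : A.card = hh p B1 Rn l k := by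
    rw [hA, card_image_of_injOn]
    · rfl
    · intro r hr r' hr' he
      rw [mem_coe, mem_filter] at hr hr'
      exact Prod.ext (hr.2.1.trans hr'.2.1.symm) he
  have hAmem : ∀ a ∈ A, (l, a) ∈ Rn ∧ clr p B1 l k a := by
    intro a ha
    rw [hA, mem_image] at ha
    obtain ⟨r, hr, hra⟩ := ha
    rw [mem_filter] at hr
    have : r = (l, a) := Prod.ext hr.2.1 hra
    rw [this] at hr
    exact ⟨hr.1, hr.2.2⟩
  by_cases hne : A.Nonempty
  · have h1 := hAmem _ (A.min'_mem hne)
    have h2 := hAmem _ (A.max'_mem hne)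
    have h3 := hX l _ _ (act_of_clr h h1.2 h2.2)
    rw [← hAcard]
    refine lt_of_le_of_lt ?_ h3
    unfold cnt
    apply card_le_card
    intro a ha
    rw [mem_filter]
    refine ⟨?_, hRn _ (hAmem a ha).1⟩
    rw [Finset.mem_uIcc]
    have e1 := A.min'_le a ha
    have e2 := A.le_max' a ha
    have e3 : A.min' hne ≤ A.max' hne := e1.trans e2
    constructor
    · exact (inf_le_left).trans e1
    · exact e2.trans le_sup_right
  · rw [not_nonempty_iff_eq_empty] at hne
    rw [hne] at hAcard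
    simp at hAcard
    omega

lemma exp_le_mul_exp_add {x : ℝ} (hx : 0 ≤ x) : Real.exp x ≤ x * Real.exp x + 3 := by
  by_cases h : 1 ≤ x
  · have := Real.exp_pos x
    nlinarith
  · push Not at h
    have h1 : Real.exp x ≤ Real.exp 1 := Real.exp_le_exp.mpr h.le
    have h2 := Real.exp_one_lt_three
    have := Real.exp_pos x
    nlinarith

/-- Effect of Maker's turn on the second potential. -/
lemma Psi_maker {lam : ℝ} (hlam : 0 < lam) (θ : ℕ) (hθ1 : 1 ≤ θ)
    (hθ : lam * θ ≤ 1) (M B B1 X : Finset V) (R Rn : Finset (L × ℤ)) (hB : B ⊆ B1)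
    (hX : ∀ l i j, act p (M ∪ X) B1 l i j → cnt p X l i j < θ)
    (hRn : ∀ r ∈ Rn, p r.1 r.2 ∈ X) :
    Psi p lam (M ∪ X) B1 (R ∪ Rn) ≤
      Psi p lam M B R + ∑ r ∈ Rn, (5 * lam * GG p lam B R r.1 r.2 + 9) := by
  have hjj : ∀ l k, act p (M ∪ X) B1 l k k → hh p B1 Rn l k < θ := fun l k h =>
    hh_new_lt θ hθ1 M X B1 Rn hRn hX l k h
  have hunion : ∀ l k, hh p B1 (R ∪ Rn) l k ≤ hh p B R l k + hh p B1 Rn l k := by
    intro l k
    have h1 : hh p B1 (R ∪ Rn) l k ≤ hh p B1 R l k + hh p B1 Rn l k := by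
      unfold hh
      rw [filter_union]
      exact card_union_le _ _
    have h2 := hh_mono hB R l k (p := p)
    omega
  have hsplit : Psi p lam (M ∪ X) B1 (R ∪ Rn) ≤
      ∑ r ∈ R.filter (fun r => act p (M ∪ X) B1 r.1 r.2 r.2),
        Real.exp (lam * (hh p B1 (R ∪ Rn) r.1 r.2 : ℝ)) +
      ∑ r ∈ Rn.filter (fun r => act p (M ∪ X) B1 r.1 r.2 r.2),
        Real.exp (lam * (hh p B1 (R ∪ Rn) r.1 r.2 : ℝ)) := by
    unfold Psi
    rw [filter_union]
    have := sum_union_inter (s₁ := R.filter (fun r => act p (M ∪ X) B1 r.1 r.2 r.2))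
      (s₂ := Rn.filter (fun r => act p (M ∪ X) B1 r.1 r.2 r.2))
      (f := fun r => Real.exp (lam * (hh p B1 (R ∪ Rn) r.1 r.2 : ℝ)))
    rw [← this]
    have h0 : 0 ≤ ∑ r ∈ R.filter (fun r => act p (M ∪ X) B1 r.1 r.2 r.2) ∩
        Rn.filter (fun r => act p (M ∪ X) B1 r.1 r.2 r.2),
        Real.exp (lam * (hh p B1 (R ∪ Rn) r.1 r.2 : ℝ)) :=
      sum_nonneg (fun _ _ => (Real.exp_pos _).le)
    linarith
  -- old records
  have hold : ∑ r ∈ R.filter (fun r => act p (M ∪ X) B1 r.1 r.2 r.2),
        Real.exp (lam * (hh p B1 (R ∪ Rn) r.1 r.2 : ℝ)) ≤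
      Psi p lam M B R + 2 * lam * ∑ r ∈ Rn, GG p lam B R r.1 r.2 := by
    have h1 : ∑ r ∈ R.filter (fun r => act p (M ∪ X) B1 r.1 r.2 r.2),
        Real.exp (lam * (hh p B1 (R ∪ Rn) r.1 r.2 : ℝ)) ≤
        ∑ r ∈ R.filter (fun r => act p (M ∪ X) B1 r.1 r.2 r.2),
          (Real.exp (lam * (hh p B R r.1 r.2 : ℝ)) + 2 * lam *
            (Real.exp (lam * (hh p B R r.1 r.2 : ℝ)) * (hh p B1 Rn r.1 r.2 : ℝ))) := by
      apply sum_le_sum
      intro r hr
      rw [mem_filter] at hr
      have h2 := hjj r.1 r.2 hr.2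
      have h3 : (hh p B1 Rn r.1 r.2 : ℝ) ≤ θ := by exact_mod_cast h2.le
      have h4 : (hh p B1 (R ∪ Rn) r.1 r.2 : ℝ) ≤
          (hh p B R r.1 r.2 : ℝ) + (hh p B1 Rn r.1 r.2 : ℝ) := by
        exact_mod_cast hunion r.1 r.2
      have h5 : 0 ≤ lam * (hh p B1 Rn r.1 r.2 : ℝ) := by positivity
      have h6 : lam * (hh p B1 Rn r.1 r.2 : ℝ) ≤ 1 :=
        (mul_le_mul_of_nonneg_left h3 hlam.le).trans hθ
      calc Real.exp (lam * (hh p B1 (R ∪ Rn) r.1 r.2 : ℝ))
          ≤ Real.exp (lam * (hh p B R r.1 r.2 : ℝ) + lam * (hh p B1 Rn r.1 r.2 : ℝ)) := by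
            apply Real.exp_le_exp.mpr
            rw [← mul_add]
            exact mul_le_mul_of_nonneg_left h4 hlam.le
        _ = Real.exp (lam * (hh p B R r.1 r.2 : ℝ)) *
              Real.exp (lam * (hh p B1 Rn r.1 r.2 : ℝ)) := Real.exp_add _ _
        _ ≤ Real.exp (lam * (hh p B R r.1 r.2 : ℝ)) *
              (1 + 2 * (lam * (hh p B1 Rn r.1 r.2 : ℝ))) :=
            mul_le_mul_of_nonneg_left (exp_le_one_add h5 h6) (Real.exp_pos _).le
        _ = _ := by ring
    refine h1.trans ?_
    rw [sum_add_distrib, ← mul_sum]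
    apply add_le_add
    · unfold Psi
      apply sum_le_sum_of_subset_of_nonneg
      · intro r hr
        rw [mem_filter] at hr ⊢
        exact ⟨hr.1, act_mono subset_union_left hB hr.2⟩
      · intro r _ _
        exact (Real.exp_pos _).le
    · apply mul_le_mul_of_nonneg_left _ (by positivity)
      calc ∑ r ∈ R.filter (fun r => act p (M ∪ X) B1 r.1 r.2 r.2),
            Real.exp (lam * (hh p B R r.1 r.2 : ℝ)) * (hh p B1 Rn r.1 r.2 : ℝ)
          ≤ ∑ r ∈ R, Real.exp (lam * (hh p B R r.1 r.2 : ℝ)) * (hh p B1 Rn r.1 r.2 : ℝ) := by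
            apply sum_le_sum_of_subset_of_nonneg (filter_subset _ _)
            intro r _ _
            positivity
        _ = ∑ r ∈ R, ∑ r' ∈ Rn, (if r'.1 = r.1 ∧ clr p B1 r.1 r.2 r'.2 then
              Real.exp (lam * (hh p B R r.1 r.2 : ℝ)) else 0) := by
            apply sum_congr rfl
            intro r _
            rw [← sum_filter, sum_const, nsmul_eq_mul, mul_comm]
            rfl
        _ = ∑ r' ∈ Rn, ∑ r ∈ R, (if r'.1 = r.1 ∧ clr p B1 r.1 r.2 r'.2 then
              Real.exp (lam * (hh p B R r.1 r.2 : ℝ)) else 0) := sum_comm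
        _ ≤ ∑ r' ∈ Rn, GG p lam B R r'.1 r'.2 := by
            apply sum_le_sum
            intro r' _
            rw [← sum_filter]
            have e1 : ∀ r ∈ R.filter (fun r => r'.1 = r.1 ∧ clr p B1 r.1 r.2 r'.2),
                Real.exp (lam * (hh p B R r.1 r.2 : ℝ)) =
                  Real.exp (lam * (hh p B R r'.1 r'.2 : ℝ)) := by
              intro r hr
              rw [mem_filter] at hr
              obtain ⟨-, h1, h2⟩ := hr
              have h3 : hh p B R r.1 r.2 = hh p B R r'.1 r'.2 := by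
                rw [h1]
                have h2' : clr p B r.1 r.2 r'.2 := clr_mono hB h2
                unfold hh
                congr 1
                apply filter_congr
                intro q _
                constructor
                · rintro ⟨h4, h5⟩
                  exact ⟨h4, clr_trans (clr_symm h2') h5⟩
                · rintro ⟨h4, h5⟩
                  exact ⟨h4, clr_trans h2' h5⟩
              rw [h3]
            rw [sum_congr rfl e1, sum_const, nsmul_eq_mul]
            unfold GG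
            apply mul_le_mul_of_nonneg_right _ (Real.exp_pos _).le
            have : (R.filter (fun r => r'.1 = r.1 ∧ clr p B1 r.1 r.2 r'.2)).card ≤
                hh p B R r'.1 r'.2 := by
              unfold hh
              apply card_le_card
              intro r hr
              rw [mem_filter] at hr ⊢
              refine ⟨hr.1, hr.2.1.symm, ?_⟩
              rw [hr.2.1]
              exact clr_symm (clr_mono hB hr.2.2)
            exact_mod_cast this
  -- new records
  have hnew : ∑ r ∈ Rn.filter (fun r => act p (M ∪ X) B1 r.1 r.2 r.2),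
        Real.exp (lam * (hh p B1 (R ∪ Rn) r.1 r.2 : ℝ)) ≤
      ∑ r ∈ Rn, (3 * lam * GG p lam B R r.1 r.2 + 9) := by
    calc _ ≤ ∑ r ∈ Rn.filter (fun r => act p (M ∪ X) B1 r.1 r.2 r.2),
          (3 * lam * GG p lam B R r.1 r.2 + 9) := by
          apply sum_le_sum
          intro r hr
          rw [mem_filter] at hr
          have h2 := hjj r.1 r.2 hr.2
          have h3 : (hh p B1 Rn r.1 r.2 : ℝ) ≤ θ := by exact_mod_cast h2.le
          have h4 : (hh p B1 (R ∪ Rn) r.1 r.2 : ℝ) ≤
              (hh p B R r.1 r.2 : ℝ) + (hh p B1 Rn r.1 r.2 : ℝ) := by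
            exact_mod_cast hunion r.1 r.2
          have h6 : lam * (hh p B1 Rn r.1 r.2 : ℝ) ≤ 1 :=
            (mul_le_mul_of_nonneg_left h3 hlam.le).trans hθ
          have h7 : (0 : ℝ) ≤ lam * (hh p B R r.1 r.2 : ℝ) := by positivity
          have h8 := exp_le_mul_exp_add h7
          have h9 : lam * GG p lam B R r.1 r.2 = lam * (hh p B R r.1 r.2 : ℝ) *
              Real.exp (lam * (hh p B R r.1 r.2 : ℝ)) := by unfold GG; ring
          calc Real.exp (lam * (hh p B1 (R ∪ Rn) r.1 r.2 : ℝ))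
              ≤ Real.exp (lam * (hh p B R r.1 r.2 : ℝ) + 1) := by
                apply Real.exp_le_exp.mpr
                calc lam * (hh p B1 (R ∪ Rn) r.1 r.2 : ℝ)
                    ≤ lam * ((hh p B R r.1 r.2 : ℝ) + (hh p B1 Rn r.1 r.2 : ℝ)) :=
                      mul_le_mul_of_nonneg_left h4 hlam.le
                  _ = lam * (hh p B R r.1 r.2 : ℝ) + lam * (hh p B1 Rn r.1 r.2 : ℝ) := by ring
                  _ ≤ _ := by linarith
            _ = Real.exp (lam * (hh p B R r.1 r.2 : ℝ)) * Real.exp 1 := Real.exp_add _ _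
            _ ≤ Real.exp (lam * (hh p B R r.1 r.2 : ℝ)) * 3 :=
                mul_le_mul_of_nonneg_left Real.exp_one_lt_three.le (Real.exp_pos _).le
            _ ≤ 3 * lam * GG p lam B R r.1 r.2 + 9 := by
                have : 3 * lam * GG p lam B R r.1 r.2 = 3 * (lam * GG p lam B R r.1 r.2) := by ring
                rw [this, h9]
                linarith
      _ ≤ _ := by
          apply sum_le_sum_of_subset_of_nonneg (filter_subset _ _)
          intro r _ _
          have := GG_nonneg (p := p) lam B R r.1 r.2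
          positivity
  refine hsplit.trans ((add_le_add hold hnew).trans ?_)
  rw [sum_add_distrib, sum_add_distrib, ← mul_sum, ← mul_sum]
  have : (3 * lam) * ∑ r ∈ Rn, GG p lam B R r.1 r.2 + 2 * lam * ∑ r ∈ Rn, GG p lam B R r.1 r.2 =
    (5 * lam) * ∑ r ∈ Rn, GG p lam B R r.1 r.2 := by ring
  linarith

end Pool.Agent.Work.MP_a77be0_co
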