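import Mathlib
import Pool.Agent.Work.MP_a77be0_co.Burst

/-!
The invariants of Breaker's strategy and the two halves of a round.
-/

namespace Pool.Agent.Work.MP_a77be0_co

open Finset Classical

variable {V L : Type*} {p : L → ℤ → V}

/-- position on `l` of the crossing with `l'` -/
noncomputable def posX (p : L → ℤ → V) (l l' : L) : ℤ :=
  if h : ∃ k j, p l k = p l' j then Classical.choose h else 0

lemma posX_eq (hp : Geom p) {l l' : L} (hne : l ≠ l') {i j : ℤ} (h : p l i = p l' j) :
    posX p l l' = i := by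
  have hex : ∃ k j, p l k = p l' j := ⟨i, j, h⟩
  unfold posX
  rw [dif_pos hex]
  by_contra hcon
  obtain ⟨j', hj'⟩ := Classical.choose_spec hex
  exact hne (hp.uniq l l' _ _ _ _ hcon hj' h)

/-- board of a line, at the time it becomes known -/
noncomputable def bdN (hp : Geom p) (M : Finset V) (l : L) : Finset ℤ :=
  M.preimage (p l) (hp.inj l).injOn ∪ (lns hp M).image (fun l' => posX p l l')

lemma card_bdN (hp : Geom p) (M : Finset V) (l : L) :
    (bdN hp M l).card ≤ M.card + M.card ^ 2 := by
  unfold bdN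
  refine (card_union_le _ _).trans ?_
  apply Nat.add_le_add
  · apply card_le_card_of_injOn (p l)
    · intro k hk
      rw [mem_coe, mem_preimage] at hk
      exact hk
    · exact (hp.inj l).injOn
  · exact card_image_le.trans (card_lns hp M)

lemma mem_bdN_of_mem (hp : Geom p) {M : Finset V} {l : L} {k : ℤ} (h : p l k ∈ M) :
    k ∈ bdN hp M l := by
  unfold bdN
  rw [mem_union, mem_preimage]
  exact Or.inl h

lemma mem_bdN_of_cross (hp : Geom p) {M : Finset V} {l l' : L} (hne : l ≠ l')
    (hl' : l' ∈ lns hp M) {i j : ℤ} (h : p l i = p l' j) : i ∈ bdN hp M l := by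
  unfold bdN
  rw [mem_union, mem_image]
  exact Or.inr ⟨l', hl', posX_eq hp hne h⟩

/-- all intervals with ends in the boards of the lines of `K` -/
noncomputable def mkJ (K : Finset L) (bd : L → Finset ℤ) : Finset (L × ℤ × ℤ) :=
  K.biUnion (fun l => ((bd l) ×ˢ (bd l)).image (fun ij => (l, ij.1, ij.2)))

lemma mem_mkJ {K : Finset L} {bd : L → Finset ℤ} {l : L} (hl : l ∈ K) {i j : ℤ}
    (hi : i ∈ bd l) (hj : j ∈ bd l) : (l, i, j) ∈ mkJ K bd := by
  unfold mkJ
  rw [mem_biUnion]
  refine ⟨l, hl, ?_⟩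
  rw [mem_image]
  exact ⟨(i, j), mem_product.mpr ⟨hi, hj⟩, rfl⟩

lemma fst_of_mem_mkJ {K : Finset L} {bd : L → Finset ℤ} {t : L × ℤ × ℤ} (ht : t ∈ mkJ K bd) :
    t.1 ∈ K := by
  unfold mkJ at ht
  rw [mem_biUnion] at ht
  obtain ⟨l, hl, ht⟩ := ht
  rw [mem_image] at ht
  obtain ⟨ij, -, rfl⟩ := ht
  exact hl

lemma card_mkJ {K : Finset L} {bd : L → Finset ℤ} {S : ℕ} (hS : ∀ l, (bd l).card ≤ S) :
    (mkJ K bd).card ≤ S ^ 2 * K.card := by
  unfold mkJ
  refine card_biUnion_le.trans ?_
  calc ∑ l ∈ K, (((bd l) ×ˢ (bd l)).image (fun ij => (l, ij.1, ij.2))).card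
      ≤ ∑ _l ∈ K, S ^ 2 := by
        apply sum_le_sum
        intro l _
        refine card_image_le.trans ?_
        rw [card_product, sq]
        exact Nat.mul_le_mul (hS l) (hS l)
    _ = S ^ 2 * K.card := by rw [sum_const, smul_eq_mul, mul_comm]

/-- The invariant between Maker's and Breaker's turn. -/
structure PreInv (hp : Geom p) (lam : ℝ) (S : ℕ) (PB : ℝ) (M B : Finset V) (bd : L → Finset ℤ)
    (R : Finset (L × ℤ)) (J : Finset (L × ℤ × ℤ)) : Prop where
  cross : ∀ l ∈ lns hp M, ∀ l' ∈ lns hp M, l ≠ l' → ∀ i j, p l i = p l' j → i ∈ bd l ∨ j ∈ bd l'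
  cover : ∀ l ∈ lns hp M, ∀ k, p l k ∈ M → k ∈ bd l ∨ (l, k) ∈ R
  recM : ∀ r ∈ R, p r.1 r.2 ∈ M
  jj : ∀ l ∈ lns hp M, ∀ i ∈ bd l, ∀ j ∈ bd l, (l, i, j) ∈ J
  phi : Phi p lam M B J ≤ 3 * (S : ℝ) ^ 2 * ((lns hp M).card : ℝ)
  psi : Psi p lam M B R ≤ PB

/-- The invariant after Breaker's turn. -/
structure Inv (hp : Geom p) (lam : ℝ) (S c1 c2 : ℕ) (PB : ℝ) (M B : Finset V) (bd : L → Finset ℤ)
    (R : Finset (L × ℤ)) (J : Finset (L × ℤ × ℤ)) : Prop
    extends PreInv hp lam S PB M B bd R J where
  phiD : ∀ z, z ∉ M → z ∉ B → Phi p lam M B J + c1 * DD p lam M B J z ≤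
    3 * (S : ℝ) ^ 2 * ((lns hp M).card : ℝ)
  psiG : ∀ l k, p l k ∉ M → p l k ∉ B →
    Psi p lam M B R + (c2 : ℝ) / 2 * (GG p lam B R l k - G0 lam) ≤ PB

lemma Inv.mono {hp : Geom p} {lam : ℝ} (hlam : 0 ≤ lam) {S c1 c2 : ℕ} {PB : ℝ}
    {M B B' : Finset V} {bd : L → Finset ℤ} {R : Finset (L × ℤ)} {J : Finset (L × ℤ × ℤ)}
    (h : Inv hp lam S c1 c2 PB M B bd R J) (hB : B ⊆ B') : Inv hp lam S c1 c2 PB M B' bd R J where
  cross := h.cross
  cover := h.cover
  recM := h.recM
  jj := h.jj
  phi := (Phi_mono lam M hB J).trans h.phi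
  psi := (Psi_mono hlam M hB R).trans h.psi
  phiD := by
    intro z h1 h2
    have h3 := h.phiD z h1 (fun hc => h2 (hB hc))
    have h4 := Phi_mono lam M hB J (p := p)
    have h5 := DD_mono lam M hB J z (p := p)
    have h6 : (c1 : ℝ) * DD p lam M B' J z ≤ c1 * DD p lam M B J z :=
      mul_le_mul_of_nonneg_left h5 (by positivity)
    linarith
  psiG := by
    intro l k h1 h2
    have h3 := h.psiG l k h1 (fun hc => h2 (hB hc))
    have h4 := Psi_mono hlam M hB R (p := p)
    have h5 := GG_mono hlam hB R l k (p := p)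
    have h6 : (c2 : ℝ) / 2 * (GG p lam B' R l k - G0 lam) ≤
        (c2 : ℝ) / 2 * (GG p lam B R l k - G0 lam) :=
      mul_le_mul_of_nonneg_left (by linarith) (by positivity)
    linarith

/-- Breaker's half of a round. -/
lemma reply (hp : Geom p) {lam : ℝ} (hlam : 0 < lam) {S : ℕ} (c1 c2 : ℕ) {PB : ℝ}
    {M B : Finset V} {bd : L → Finset ℤ} {R : Finset (L × ℤ)} {J : Finset (L × ℤ × ℤ)}
    (h : PreInv hp lam S PB M B bd R J) :
    ∃ Y : Finset V, Disjoint Y (M ∪ B) ∧ Y.card ≤ c1 + 2 * c2 ∧
      Inv hp lam S c1 c2 PB M (B ∪ Y) bd R J := by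
  obtain ⟨Y1, hY11, hY12, hY13⟩ := greedy (p := p) lam M B J c1
  obtain ⟨Y2, hY21, hY22, hY23⟩ := treat hp hlam M (B ∪ Y1) R h.recM c2
  have e1 : B ∪ (Y1 ∪ Y2) = B ∪ Y1 ∪ Y2 := by rw [union_assoc]
  refine ⟨Y1 ∪ Y2, ?_, ?_, ?_⟩
  · rw [disjoint_union_left]
    refine ⟨hY11, ?_⟩
    apply disjoint_of_subset_right _ hY21
    exact union_subset_union (Subset.refl _) subset_union_left
  · have := card_union_le Y1 Y2
    omega
  · rw [e1]
    refine ⟨⟨h.cross, h.cover, h.recM, h.jj, ?_, ?_⟩, ?_, ?_⟩
    · exact (Phi_mono lam M (subset_union_left.trans subset_union_left) J).trans h.phi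
    · exact (Psi_mono hlam.le M (subset_union_left.trans subset_union_left) R).trans h.psi
    · intro z h1 h2
      have h3 := hY13 z h1 (fun hc => h2 (mem_union_left _ hc))
      have h4 := Phi_mono lam M (subset_union_left : B ∪ Y1 ⊆ B ∪ Y1 ∪ Y2) J (p := p)
      have h5 := DD_mono lam M (subset_union_left : B ∪ Y1 ⊆ B ∪ Y1 ∪ Y2) J z (p := p)
      have h6 : (c1 : ℝ) * DD p lam M (B ∪ Y1 ∪ Y2) J z ≤ c1 * DD p lam M (B ∪ Y1) J z :=
        mul_le_mul_of_nonneg_left h5 (by positivity)
      have h7 := h.phi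
      linarith
    · intro l k h1 h2
      have h3 := hY23 l k h1 h2
      have h4 := Psi_mono hlam.le M (subset_union_left : B ⊆ B ∪ Y1) R (p := p)
      have h5 := h.psi
      linarith

lemma Phi_union_le (lam : ℝ) (M B : Finset V) (J J' : Finset (L × ℤ × ℤ)) :
    Phi p lam M B (J ∪ J') ≤ Phi p lam M B J + Phi p lam M B J' := by
  unfold Phi
  rw [filter_union]
  have := sum_union_inter (s₁ := J.filter (fun t => act p M B t.1 t.2.1 t.2.2))
    (s₂ := J'.filter (fun t => act p M B t.1 t.2.1 t.2.2)) (f := fun t => wt p lam M t)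
  have h0 : 0 ≤ ∑ t ∈ J.filter (fun t => act p M B t.1 t.2.1 t.2.2) ∩
      J'.filter (fun t => act p M B t.1 t.2.1 t.2.2), wt p lam M t :=
    sum_nonneg (fun _ _ => (wt_pos _ _ _).le)
  linarith

lemma Phi_le_card {lam : ℝ} {θ : ℕ} (hlam : 0 ≤ lam) (hθ : lam * θ ≤ 1) (M B : Finset V)
    (J : Finset (L × ℤ × ℤ))
    (h : ∀ t ∈ J, act p M B t.1 t.2.1 t.2.2 → cnt p M t.1 t.2.1 t.2.2 ≤ θ) :
    Phi p lam M B J ≤ 3 * (J.card : ℝ) := by
  unfold Phi
  calc ∑ t ∈ J.filter (fun t => act p M B t.1 t.2.1 t.2.2), wt p lam M t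
      ≤ ∑ t ∈ J.filter (fun t => act p M B t.1 t.2.1 t.2.2), (3 : ℝ) := by
        apply sum_le_sum
        intro t ht
        rw [mem_filter] at ht
        have h1 := h t ht.1 ht.2
        have h2 : (cnt p M t.1 t.2.1 t.2.2 : ℝ) ≤ θ := by exact_mod_cast h1
        unfold wt
        calc Real.exp (lam * (cnt p M t.1 t.2.1 t.2.2 : ℝ)) ≤ Real.exp 1 := by
              apply Real.exp_le_exp.mpr
              exact (mul_le_mul_of_nonneg_left h2 hlam).trans hθ
          _ ≤ 3 := Real.exp_one_lt_three.le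
    _ = 3 * ((J.filter (fun t => act p M B t.1 t.2.1 t.2.2)).card : ℝ) := by
        rw [sum_const, nsmul_eq_mul, mul_comm]
    _ ≤ 3 * (J.card : ℝ) := by
        have : ((J.filter (fun t => act p M B t.1 t.2.1 t.2.2)).card : ℝ) ≤ J.card := by
          exact_mod_cast card_filter_le _ _
        linarith

lemma cnt_le_one_of_notMem (hp : Geom p) {M : Finset V} {l : L} (hl : l ∉ lns hp M) (i j : ℤ) :
    cnt p M l i j ≤ 1 := by
  unfold cnt
  rw [card_le_one]
  intro a ha b hb
  rw [mem_filter] at ha hb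
  by_contra hab
  apply hl
  rw [mem_lns]
  exact ⟨a, b, hab, ha.2, hb.2⟩

/-- The invariant holds at a position with few Maker points. -/
lemma initial (hp : Geom p) {lam : ℝ} (hlam : 0 ≤ lam) {θ : ℕ} (hθ : lam * θ ≤ 1) {S : ℕ}
    {PB : ℝ} (hPB : 0 ≤ PB) (M B : Finset V) (hM : M.card ≤ θ) (hS : M.card + M.card ^ 2 ≤ S) :
    PreInv hp lam S PB M B (bdN hp M) ∅ (mkJ (lns hp M) (bdN hp M)) := by
  refine ⟨?_, ?_, ?_, ?_, ?_, ?_⟩
  · intro l _ l' hl' hne i j h
    exact Or.inl (mem_bdN_of_cross hp hne hl' h)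
  · intro l _ k hk
    exact Or.inl (mem_bdN_of_mem hp hk)
  · intro r hr
    simp at hr
  · intro l hl i hi j hj
    exact mem_mkJ hl hi hj
  · refine (Phi_le_card hlam hθ M B _ ?_).trans ?_
    · intro t _ _
      exact (cnt_le_card hp M _ _ _).trans hM
    · have h1 : (mkJ (lns hp M) (bdN hp M)).card ≤ S ^ 2 * (lns hp M).card :=
        card_mkJ (fun l => (card_bdN hp M l).trans hS)
      have h2 : ((mkJ (lns hp M) (bdN hp M)).card : ℝ) ≤ (S : ℝ) ^ 2 * ((lns hp M).card : ℝ) := by
        exact_mod_cast h1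
      linarith
  · unfold Psi
    simpa using hPB

/-- new records of a turn of Maker -/
noncomputable def newR (hp : Geom p) (M X : Finset V) (bd : L → Finset ℤ) : Finset (L × ℤ) :=
  (lns hp M).biUnion (fun l => ((X.preimage (p l) (hp.inj l).injOn).filter
    (fun k => k ∉ bd l)).image (fun k => (l, k)))

lemma mem_newR (hp : Geom p) (M X : Finset V) (bd : L → Finset ℤ) (l : L) (k : ℤ) :
    (l, k) ∈ newR hp M X bd ↔ l ∈ lns hp M ∧ p l k ∈ X ∧ k ∉ bd l := by
  unfold newR
  rw [mem_biUnion]
  constructor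
  · rintro ⟨l', hl', h⟩
    rw [mem_image] at h
    obtain ⟨k', hk', he⟩ := h
    rw [mem_filter, mem_preimage] at hk'
    simp only [Prod.mk.injEq] at he
    obtain ⟨rfl, rfl⟩ := he
    exact ⟨hl', hk'.1, hk'.2⟩
  · rintro ⟨h1, h2, h3⟩
    refine ⟨l, h1, ?_⟩
    rw [mem_image]
    refine ⟨k, ?_, rfl⟩
    rw [mem_filter, mem_preimage]
    exact ⟨h2, h3⟩

/-- Maker's half of a round, including Breaker's treatment of the bursts. -/
lemma makerStep (hp : Geom p) {lam : ℝ} (hlam : 0 < lam) {θ : ℕ} (hθ : lam * θ ≤ 1)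
    (hθ2 : 2 ≤ θ) {S c1 c2 : ℕ} {PB : ℝ} (n : ℕ) (hc1 : 2 * lam * n ≤ c1)
    (hc2 : 10 * lam * n ≤ c2) {M B : Finset V} {bd : L → Finset ℤ} {R : Finset (L × ℤ)}
    {J : Finset (L × ℤ × ℤ)} (h : Inv hp lam S c1 c2 PB M B bd R J) (X : Finset V)
    (hX : Disjoint X (M ∪ B)) (hXn : X.card ≤ n)
    (hS : (M ∪ X).card + (M ∪ X).card ^ 2 ≤ S) :
    ∃ Y : Finset V, ∃ bd' R' J', Disjoint Y (M ∪ X ∪ B) ∧ θ * (θ - 1) * Y.card ≤ 2 * n ^ 2 ∧
      PreInv hp lam S (PB + 99 * n) (M ∪ X) (B ∪ Y) bd' R' J' := by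
  obtain ⟨Y, hY1, hY2, hY3⟩ := burst hp (M ∪ X) B X subset_union_right θ hθ2
  have hburst : ∀ l i j, act p (M ∪ X) (B ∪ Y) l i j → cnt p X l i j < θ :=
    hY3 (B ∪ Y) (Subset.refl _)
  have hfree : ∀ x ∈ X, x ∉ M ∧ x ∉ B := by
    intro x hx
    have := disjoint_left.mp hX hx
    rw [mem_union] at this
    tauto
  set Rn := newR hp M X bd with hRn
  set Jn := mkJ (lns hp (M ∪ X) \ lns hp M) (bdN hp (M ∪ X)) with hJn
  have hRnX : ∀ r ∈ Rn, p r.1 r.2 ∈ X := by
    rintro ⟨l, k⟩ hr
    rw [hRn, mem_newR] at hr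
    exact hr.2.1
  have hRncard : Rn.card ≤ n := by
    refine le_trans ?_ hXn
    apply card_le_card_of_injOn (fun r : L × ℤ => p r.1 r.2)
    · intro r hr
      exact hRnX r hr
    · rintro ⟨l, k⟩ hr ⟨l', k'⟩ hr' he
      rw [mem_coe, hRn, mem_newR] at hr hr'
      change p l k = p l' k' at he
      by_cases hll : l = l'
      · subst hll
        rw [hp.inj l he]
      · exfalso
        rcases h.cross l hr.1 l' hr'.1 hll k k' he with h1 | h1
        · exact hr.2.2 h1
        · exact hr'.2.2 h1
  refine ⟨Y, fun l => if l ∈ lns hp M then bd l else bdN hp (M ∪ X) l, R ∪ Rn, J ∪ Jn, hY1, ?_, ?_⟩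
  · exact hY2.trans (Nat.mul_le_mul_left _ (Nat.pow_le_pow_left hXn 2))
  · refine ⟨?_, ?_, ?_, ?_, ?_, ?_⟩
    · -- cross
      intro l hl l' hl' hne i j hij
      by_cases h1 : l ∈ lns hp M
      · by_cases h2 : l' ∈ lns hp M
        · simp only [h1, h2, if_true]
          exact h.cross l h1 l' h2 hne i j hij
        · right
          simp only [h2, if_false]
          exact mem_bdN_of_cross hp (Ne.symm hne) hl hij.symm
      · left
        simp only [h1, if_false]
        exact mem_bdN_of_cross hp hne hl' hij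
    · -- cover
      intro l hl k hk
      by_cases h1 : l ∈ lns hp M
      · simp only [h1, if_true]
        rw [mem_union] at hk
        rcases hk with hk | hk
        · rcases h.cover l h1 k hk with h2 | h2
          · exact Or.inl h2
          · exact Or.inr (mem_union_left _ h2)
        · by_cases h2 : k ∈ bd l
          · exact Or.inl h2
          · right
            apply mem_union_right
            rw [hRn, mem_newR]
            exact ⟨h1, hk, h2⟩
      · left
        simp only [h1, if_false]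
        exact mem_bdN_of_mem hp hk
    · -- recM
      intro r hr
      rw [mem_union] at hr ⊢
      rcases hr with hr | hr
      · exact Or.inl (h.recM r hr)
      · exact Or.inr (hRnX r hr)
    · -- jj
      intro l hl i hi j hj
      by_cases h1 : l ∈ lns hp M
      · simp only [h1, if_true] at hi hj
        exact mem_union_left _ (h.jj l h1 i hi j hj)
      · simp only [h1, if_false] at hi hj
        apply mem_union_right
        exact mem_mkJ (mem_sdiff.mpr ⟨hl, h1⟩) hi hj
    · -- phi
      set Bd : ℝ := 3 * (S : ℝ) ^ 2 * ((lns hp M).card : ℝ) with hBd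
      have h1 := Phi_maker hp lam hlam.le θ hθ M B (B ∪ Y) X J subset_union_left hburst
      have h2 : 2 * lam * ∑ x ∈ X, DD p lam M B J x ≤ Bd - Phi p lam M B J := by
        have hnn : 0 ≤ Bd - Phi p lam M B J := by have := h.phi; linarith
        rw [mul_sum]
        have h3 : ∀ x ∈ X, 2 * lam * DD p lam M B J x ≤ (Bd - Phi p lam M B J) / n := by
          intro x hx
          have hnpos : 0 < n := lt_of_lt_of_le (card_pos.mpr ⟨x, hx⟩) hXn
          have hnR : (0 : ℝ) < n := by exact_mod_cast hnpos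
          rw [le_div_iff₀ hnR]
          have h4 := h.phiD x (hfree x hx).1 (hfree x hx).2
          have h5 := DD_nonneg (p := p) lam M B J x
          calc 2 * lam * DD p lam M B J x * n = (2 * lam * n) * DD p lam M B J x := by ring
            _ ≤ c1 * DD p lam M B J x := mul_le_mul_of_nonneg_right hc1 h5
            _ ≤ Bd - Phi p lam M B J := by linarith
        calc ∑ x ∈ X, 2 * lam * DD p lam M B J x ≤ ∑ _x ∈ X, (Bd - Phi p lam M B J) / n :=
              sum_le_sum h3
          _ = X.card * ((Bd - Phi p lam M B J) / n) := by rw [sum_const, nsmul_eq_mul]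
          _ ≤ Bd - Phi p lam M B J := by
              rcases Nat.eq_zero_or_pos n with h0 | hnpos
              · subst h0
                simp only [Nat.cast_zero, div_zero, mul_zero]
                exact hnn
              · have hnR : (0 : ℝ) < n := by exact_mod_cast hnpos
                rw [← mul_div_assoc, div_le_iff₀ hnR]
                have : (X.card : ℝ) ≤ n := by exact_mod_cast hXn
                nlinarith
      have h6 : Phi p lam (M ∪ X) (B ∪ Y) Jn ≤ 3 * (Jn.card : ℝ) := by
        apply Phi_le_card hlam.le hθ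
        intro t ht hact
        have h7 := fst_of_mem_mkJ ht
        rw [mem_sdiff] at h7
        have h8 := cnt_union_le (p := p) M X t.1 t.2.1 t.2.2
        have h9 := cnt_le_one_of_notMem hp h7.2 t.2.1 t.2.2
        have h10 := hburst _ _ _ hact
        omega
      have h11 : (Jn.card : ℝ) ≤ (S : ℝ) ^ 2 * ((lns hp (M ∪ X) \ lns hp M).card : ℝ) := by
        have : Jn.card ≤ S ^ 2 * (lns hp (M ∪ X) \ lns hp M).card :=
          card_mkJ (fun l => (card_bdN hp (M ∪ X) l).trans hS)
        exact_mod_cast this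
      have h12 : ((lns hp (M ∪ X)).card : ℝ) =
          ((lns hp (M ∪ X) \ lns hp M).card : ℝ) + ((lns hp M).card : ℝ) := by
        have := card_sdiff_add_card_eq_card (lns_mono hp (subset_union_left : M ⊆ M ∪ X))
        exact_mod_cast this.symm
      rw [h12]
      have h13 := Phi_union_le (p := p) lam (M ∪ X) (B ∪ Y) J Jn
      have h14 : 3 * (S : ℝ) ^ 2 * (((lns hp (M ∪ X) \ lns hp M).card : ℝ) +
          ((lns hp M).card : ℝ)) = 3 * ((S : ℝ) ^ 2 *
            ((lns hp (M ∪ X) \ lns hp M).card : ℝ)) + Bd := by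
        rw [hBd]; ring
      rw [h14]
      linarith
    · -- psi
      have h1 := Psi_maker (p := p) hlam θ (by omega) hθ M B (B ∪ Y) X R Rn subset_union_left
        hburst hRnX
      refine h1.trans ?_
      have hnn : 0 ≤ PB - Psi p lam M B R := by have := h.psi; linarith
      have hG0 : 5 * lam * G0 lam ≤ 90 := by
        unfold G0
        have e1 : 5 * lam * (2 / lam * Real.exp 2) = 10 * Real.exp 2 := by
          field_simp
          ring
        rw [e1]
        have e2 : Real.exp 2 = Real.exp 1 * Real.exp 1 := by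
          rw [← Real.exp_add]; norm_num
        rw [e2]
        have := Real.exp_one_lt_three
        have := Real.exp_pos 1
        nlinarith
      have h2 : ∀ r ∈ Rn, 5 * lam * GG p lam B R r.1 r.2 + 9 ≤
          (PB - Psi p lam M B R) / n + 99 := by
        intro r hr
        have hnpos : 0 < n := lt_of_lt_of_le (card_pos.mpr ⟨r, hr⟩) hRncard
        have hnR : (0 : ℝ) < n := by exact_mod_cast hnpos
        have hx := hRnX r hr
        have h3 := h.psiG r.1 r.2 (hfree _ hx).1 (hfree _ hx).2
        have h4 : 5 * lam * (GG p lam B R r.1 r.2 - G0 lam) ≤ (PB - Psi p lam M B R) / n := by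
          by_cases hs : GG p lam B R r.1 r.2 - G0 lam ≤ 0
          · have : 5 * lam * (GG p lam B R r.1 r.2 - G0 lam) ≤ 0 :=
              mul_nonpos_of_nonneg_of_nonpos (by positivity) hs
            exact this.trans (div_nonneg hnn hnR.le)
          · push Not at hs
            rw [le_div_iff₀ hnR]
            calc 5 * lam * (GG p lam B R r.1 r.2 - G0 lam) * n
                = (10 * lam * n) / 2 * (GG p lam B R r.1 r.2 - G0 lam) := by ring
              _ ≤ (c2 : ℝ) / 2 * (GG p lam B R r.1 r.2 - G0 lam) := by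
                  apply mul_le_mul_of_nonneg_right _ hs.le
                  linarith
              _ ≤ PB - Psi p lam M B R := by linarith
        linarith
      calc Psi p lam M B R + ∑ r ∈ Rn, (5 * lam * GG p lam B R r.1 r.2 + 9)
          ≤ Psi p lam M B R + ∑ _r ∈ Rn, ((PB - Psi p lam M B R) / n + 99) := by
            have := sum_le_sum h2
            linarith
        _ = Psi p lam M B R + Rn.card * ((PB - Psi p lam M B R) / n + 99) := by
            rw [sum_const, nsmul_eq_mul]
        _ ≤ Psi p lam M B R + n * ((PB - Psi p lam M B R) / n + 99) := by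
            have : (Rn.card : ℝ) ≤ n := by exact_mod_cast hRncard
            have h5 : 0 ≤ (PB - Psi p lam M B R) / n + 99 := by positivity
            have := mul_le_mul_of_nonneg_right this h5
            linarith
        _ ≤ PB + 99 * n := by
            rcases Nat.eq_zero_or_pos n with h0 | hnpos
            · subst h0
              simp
              have := h.psi
              linarith
            · have hnR : (0 : ℝ) < n := by exact_mod_cast hnpos
              have : (n : ℝ) * ((PB - Psi p lam M B R) / n + 99) =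
                  (PB - Psi p lam M B R) + 99 * n := by
                field_simp
              rw [this]
              linarith

/-- Under the invariant an active interval contains few Maker points. -/
lemma count_bound (hp : Geom p) {lam : ℝ} (hlam : 0 < lam) {S : ℕ} {PB Q1 Q2 : ℝ}
    {M B : Finset V} {bd : L → Finset ℤ} {R : Finset (L × ℤ)} {J : Finset (L × ℤ × ℤ)}
    (h : PreInv hp lam S PB M B bd R J) (hQ1 : 1 ≤ Q1) (hQ2 : 1 ≤ Q2)
    (h1 : 3 * (S : ℝ) ^ 2 * ((lns hp M).card : ℝ) ≤ Q1) (h2 : PB ≤ Q2)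
    {l : L} {i j : ℤ} (hact : act p M B l i j) :
    lam * (cnt p M l i j : ℝ) ≤ Real.log Q1 + Real.log Q2 + lam := by
  have hL1 : 0 ≤ Real.log Q1 := Real.log_nonneg hQ1
  have hL2 : 0 ≤ Real.log Q2 := Real.log_nonneg hQ2
  by_cases hl : l ∈ lns hp M
  · set A1 := (Finset.uIcc i j).filter (fun k => p l k ∈ M ∧ k ∈ bd l) with hA1
    set A2 := (Finset.uIcc i j).filter (fun k => (l, k) ∈ R) with hA2
    have hsplit : cnt p M l i j ≤ A1.card + A2.card := by
      unfold cnt
      refine le_trans (card_le_card ?_) (card_union_le A1 A2)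
      intro k hk
      rw [mem_filter] at hk
      rw [mem_union, hA1, hA2, mem_filter, mem_filter]
      rcases h.cover l hl k hk.2 with h3 | h3
      · exact Or.inl ⟨hk.1, hk.2, h3⟩
      · exact Or.inr ⟨hk.1, h3⟩
    have hmemu : ∀ k, k ∈ Finset.uIcc i j → k ∈ Set.uIcc i j := by
      intro k hk
      rw [← Finset.coe_uIcc]
      exact hk
    have hclr : ∀ k ∈ Set.uIcc i j, clr p B l i k := fun k hk =>
      clr_sub hact.1 Set.left_mem_uIcc hk
    have hB1 : lam * (A1.card : ℝ) ≤ Real.log Q1 := by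
      by_cases hne : A1.Nonempty
      · have hmemA : ∀ a ∈ A1, a ∈ Finset.uIcc i j ∧ p l a ∈ M ∧ a ∈ bd l := by
          intro a ha
          rw [hA1, mem_filter] at ha
          exact ha
        have hm1' := hmemA _ (A1.min'_mem hne)
        have hm2' := hmemA _ (A1.max'_mem hne)
        have hact1 : act p M B l (A1.min' hne) (A1.max' hne) :=
          act_of_clr hact (hclr _ (hmemu _ hm1'.1)) (hclr _ (hmemu _ hm2'.1))
        have hJ := h.jj l hl _ hm1'.2.2 _ hm2'.2.2
        have hc : A1.card ≤ cnt p M l (A1.min' hne) (A1.max' hne) := by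
          unfold cnt
          apply card_le_card
          intro a ha
          rw [mem_filter]
          refine ⟨?_, ?_⟩
          · rw [Finset.mem_uIcc]
            exact ⟨inf_le_left.trans (A1.min'_le a ha), (A1.le_max' a ha).trans le_sup_right⟩
          · exact (hmemA a ha).2.1
        have hw : wt p lam M (l, A1.min' hne, A1.max' hne) ≤ Phi p lam M B J := by
          unfold Phi
          apply single_le_sum (f := fun t => wt p lam M t) (fun _ _ => (wt_pos _ _ _).le)
          rw [mem_filter]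
          exact ⟨hJ, hact1⟩
        have h3 : Real.exp (lam * (A1.card : ℝ)) ≤ Q1 := by
          calc Real.exp (lam * (A1.card : ℝ)) ≤ wt p lam M (l, A1.min' hne, A1.max' hne) := by
                unfold wt
                apply Real.exp_le_exp.mpr
                apply mul_le_mul_of_nonneg_left _ hlam.le
                exact_mod_cast hc
            _ ≤ Phi p lam M B J := hw
            _ ≤ Q1 := h.phi.trans h1
        rw [Real.le_log_iff_exp_le (by linarith)]
        exact h3
      · rw [not_nonempty_iff_eq_empty] at hne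
        rw [hne]
        simpa using hL1
    have hB2 : lam * (A2.card : ℝ) ≤ Real.log Q2 := by
      by_cases hne : A2.Nonempty
      · obtain ⟨k0, hk0⟩ := hne
        have hk0' := hk0
        rw [hA2, mem_filter] at hk0'
        have hck0 := hclr k0 (hmemu _ hk0'.1)
        have hact0 : act p M B l k0 k0 := act_of_clr hact hck0 hck0
        have hc : A2.card ≤ hh p B R l k0 := by
          unfold hh
          apply card_le_card_of_injOn (fun k => (l, k))
          · intro k hk
            rw [mem_coe, hA2, mem_filter] at hk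
            rw [mem_coe, mem_filter]
            exact ⟨hk.2, rfl, clr_trans (clr_symm hck0) (hclr k (hmemu _ hk.1))⟩
          · intro k _ k' _ he
            simpa using he
        have hw : Real.exp (lam * (hh p B R l k0 : ℝ)) ≤ Psi p lam M B R := by
          unfold Psi
          apply single_le_sum (f := fun r : L × ℤ => Real.exp (lam * (hh p B R r.1 r.2 : ℝ)))
            (fun _ _ => (Real.exp_pos _).le) (a := (l, k0))
          rw [mem_filter]
          exact ⟨hk0'.2, hact0⟩
        have h3 : Real.exp (lam * (A2.card : ℝ)) ≤ Q2 := by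
          calc Real.exp (lam * (A2.card : ℝ)) ≤ Real.exp (lam * (hh p B R l k0 : ℝ)) := by
                apply Real.exp_le_exp.mpr
                apply mul_le_mul_of_nonneg_left _ hlam.le
                exact_mod_cast hc
            _ ≤ Psi p lam M B R := hw
            _ ≤ Q2 := h.psi.trans h2
        rw [Real.le_log_iff_exp_le (by linarith)]
        exact h3
      · rw [not_nonempty_iff_eq_empty] at hne
        rw [hne]
        simpa using hL2
    have h3 : (cnt p M l i j : ℝ) ≤ (A1.card : ℝ) + (A2.card : ℝ) := by exact_mod_cast hsplit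
    have h4 := mul_le_mul_of_nonneg_left h3 hlam.le
    rw [mul_add] at h4
    linarith
  · have h3 := cnt_le_one_of_notMem hp hl i j
    have h4 : (cnt p M l i j : ℝ) ≤ 1 := by exact_mod_cast h3
    nlinarith

end Pool.Agent.Work.MP_a77be0_co
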