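import Mathlib
import Pool.Agent.Work.MP_a77be0_co.Step
import Pool.Agent.Work.MP_a77be0_co.Defs

/-!
The lines of the integer lattice.
-/

namespace Pool.Agent.Work.MP_a77be0_co

open Finset Classical

lemma card_le_cnt {V L : Type*} {p : L → ℤ → V} (S A : Finset V) (l : L) (i j : ℤ)
    (h : ∀ X ∈ S, X ∈ A ∧ ∃ k ∈ Set.uIcc i j, p l k = X) : S.card ≤ cnt p A l i j := by
  unfold cnt
  have hsub : S ⊆ ((Finset.uIcc i j).filter (fun k => p l k ∈ A)).image (p l) := by
    intro X hX
    obtain ⟨hXA, k, hk, hkX⟩ := h X hX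
    rw [mem_image]
    refine ⟨k, ?_, hkX⟩
    rw [mem_filter]
    refine ⟨?_, ?_⟩
    · rw [← Finset.mem_coe, Finset.coe_uIcc]; exact hk
    · rw [hkX]; exact hXA
  exact (card_le_card hsub).trans card_image_le

/-- lattice lines -/
def LatLine : Type :=
  {s : Set (ℤ × ℤ) // ∃ a v : ℤ × ℤ, IsCoprime v.1 v.2 ∧ s = Set.range (fun k : ℤ => a + k • v)}

/-- base point -/
noncomputable def base (l : LatLine) : ℤ × ℤ := Classical.choose l.2

/-- direction -/
noncomputable def dir (l : LatLine) : ℤ × ℤ := Classical.choose (Classical.choose_spec l.2)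

lemma dir_coprime (l : LatLine) : IsCoprime (dir l).1 (dir l).2 :=
  (Classical.choose_spec (Classical.choose_spec l.2)).1

/-- parametrisation of a lattice line -/
noncomputable def par (l : LatLine) (k : ℤ) : ℤ × ℤ := base l + k • dir l

lemma range_par (l : LatLine) : l.1 = Set.range (par l) :=
  (Classical.choose_spec (Classical.choose_spec l.2)).2

lemma dir_ne (l : LatLine) : dir l ≠ 0 := by
  intro h
  have h1 := dir_coprime l
  rw [h] at h1
  obtain ⟨u, w, h2⟩ := h1
  simp at h2

lemma par_injective (l : LatLine) : Function.Injective (par l) := by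
  intro i j h
  have h1 : (i - j) • dir l = 0 := by
    unfold par at h
    rw [sub_smul, sub_eq_zero]
    exact add_left_cancel h
  rcases smul_eq_zero.mp h1 with h2 | h2
  · omega
  · exact absurd h2 (dir_ne l)

lemma coprime_parallel {v w : ℤ × ℤ} (hv : IsCoprime v.1 v.2) (hw : IsCoprime w.1 w.2) {a b : ℤ}
    (ha : a ≠ 0) (h : a • v = b • w) : w = v ∨ w = -v := by
  have h1 : a * v.1 = b * w.1 := by
    have := congrArg Prod.fst h
    simpa using this
  have h2 : a * v.2 = b * w.2 := by
    have := congrArg Prod.snd h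
    simpa using this
  obtain ⟨x, y, hxy⟩ := hv
  obtain ⟨x', y', hxy'⟩ := hw
  have hba : b ∣ a := by
    refine ⟨x * w.1 + y * w.2, ?_⟩
    calc a = a * (x * v.1 + y * v.2) := by rw [hxy, mul_one]
      _ = x * (a * v.1) + y * (a * v.2) := by ring
      _ = x * (b * w.1) + y * (b * w.2) := by rw [h1, h2]
      _ = b * (x * w.1 + y * w.2) := by ring
  have hab : a ∣ b := by
    refine ⟨x' * v.1 + y' * v.2, ?_⟩
    calc b = b * (x' * w.1 + y' * w.2) := by rw [hxy', mul_one]
      _ = x' * (b * w.1) + y' * (b * w.2) := by ring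
      _ = x' * (a * v.1) + y' * (a * v.2) := by rw [h1, h2]
      _ = a * (x' * v.1 + y' * v.2) := by ring
  have hassoc : b = a ∨ b = -a := by
    have := Int.natAbs_eq_natAbs_iff.mp (Nat.dvd_antisymm (Int.natAbs_dvd_natAbs.mpr hba)
      (Int.natAbs_dvd_natAbs.mpr hab))
    exact this
  rcases hassoc with hb | hb
  · left
    rw [hb] at h
    have : a • (w - v) = 0 := by rw [smul_sub, h, sub_self]
    rcases smul_eq_zero.mp this with h3 | h3
    · exact absurd h3 ha
    · exact sub_eq_zero.mp h3
  · right
    rw [hb] at h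
    have : a • (w + v) = 0 := by
      rw [smul_add, h, neg_smul, add_neg_cancel]
    rcases smul_eq_zero.mp this with h3 | h3
    · exact absurd h3 ha
    · exact eq_neg_of_add_eq_zero_left h3

lemma par_uniq (l l' : LatLine) (i j i' j' : ℤ) (hij : i ≠ j) (hi : par l i = par l' i')
    (hj : par l j = par l' j') : l = l' := by
  have h1 : (j - i) • dir l = (j' - i') • dir l' := by
    have e1 : par l j - par l i = (j - i) • dir l := by
      unfold par; rw [sub_smul]; abel
    have e2 : par l' j' - par l' i' = (j' - i') • dir l' := by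
      unfold par; rw [sub_smul]; abel
    rw [← e1, ← e2, hi, hj]
  have hdir := coprime_parallel (dir_coprime l) (dir_coprime l') (by omega) h1
  apply Subtype.ext
  rw [range_par, range_par]
  ext x
  constructor
  · rintro ⟨k, rfl⟩
    rcases hdir with h | h
    · refine ⟨i' + (k - i), ?_⟩
      have e1 : par l k = par l i + (k - i) • dir l := by unfold par; rw [sub_smul]; abel
      have e2 : par l' (i' + (k - i)) = par l' i' + (k - i) • dir l' := by
        unfold par; rw [add_smul]; abel
      rw [e1, e2, hi, h]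
    · refine ⟨i' - (k - i), ?_⟩
      have e1 : par l k = par l i + (k - i) • dir l := by unfold par; rw [sub_smul]; abel
      have e2 : par l' (i' - (k - i)) = par l' i' - (k - i) • dir l' := by
        unfold par; rw [sub_smul]; abel
      rw [e1, e2, hi, h, smul_neg, sub_neg_eq_add]
  · rintro ⟨k, rfl⟩
    rcases hdir with h | h
    · refine ⟨i + (k - i'), ?_⟩
      have e1 : par l' k = par l' i' + (k - i') • dir l' := by unfold par; rw [sub_smul]; abel
      have e2 : par l (i + (k - i')) = par l i + (k - i') • dir l := by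
        unfold par; rw [add_smul]; abel
      rw [e1, e2, hi, h]
    · refine ⟨i - (k - i'), ?_⟩
      have e1 : par l' k = par l' i' + (k - i') • dir l' := by unfold par; rw [sub_smul]; abel
      have e2 : par l (i - (k - i')) = par l i - (k - i') • dir l := by
        unfold par; rw [sub_smul]; abel
      rw [e1, e2, hi, h, smul_neg, sub_eq_add_neg]

lemma par_ex (x y : ℤ × ℤ) (hxy : x ≠ y) : ∃ l, ∃ i j, par l i = x ∧ par l j = y := by
  set d : ℤ × ℤ := y - x with hd
  have hd0 : d ≠ 0 := fun h => hxy (sub_eq_zero.mp h).symm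
  set g : ℤ := (Int.gcd d.1 d.2 : ℤ) with hg
  have hgpos : 0 < Int.gcd d.1 d.2 := by
    rw [Nat.pos_iff_ne_zero]
    intro h
    rw [Int.gcd_eq_zero_iff] at h
    exact hd0 (Prod.ext h.1 h.2)
  obtain ⟨v1, hv1⟩ := Int.gcd_dvd_left (a := d.1) (b := d.2)
  obtain ⟨v2, hv2⟩ := Int.gcd_dvd_right (a := d.1) (b := d.2)
  have hgne : g ≠ 0 := by rw [hg]; exact_mod_cast hgpos.ne'
  have hcop : IsCoprime v1 v2 := by
    rw [Int.isCoprime_iff_gcd_eq_one]
    have h1 : Int.gcd (g * v1) (g * v2) = Int.gcd d.1 d.2 := by
      rw [hg, ← hv1, ← hv2]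
    rw [Int.gcd_mul_left] at h1
    have h2 : g.natAbs = Int.gcd d.1 d.2 := by rw [hg]; simp
    rw [h2] at h1
    exact Nat.eq_of_mul_eq_mul_left hgpos (by rw [h1, mul_one])
  let l : LatLine := ⟨Set.range (fun k : ℤ => x + k • ((v1, v2) : ℤ × ℤ)), x, (v1, v2), hcop, rfl⟩
  have hx : x ∈ Set.range (par l) := by
    rw [← range_par]
    exact ⟨0, by simp⟩
  have hy : y ∈ Set.range (par l) := by
    rw [← range_par]
    refine ⟨g, ?_⟩
    have : g • ((v1, v2) : ℤ × ℤ) = d := by
      apply Prod.ext
      · simp only [Prod.smul_mk, smul_eq_mul]; exact hv1.symm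
      · simp only [Prod.smul_mk, smul_eq_mul]; exact hv2.symm
    simp only [this, hd]
    abel
  obtain ⟨i, hi⟩ := hx
  obtain ⟨j, hj⟩ := hy
  exact ⟨l, i, j, hi, hj⟩

lemma geom_par : Geom par where
  inj := par_injective
  uniq := par_uniq
  ex := par_ex

lemma toR_par (l : LatLine) (k : ℤ) :
    toR (par l k) = toR (base l) + (k : ℝ) • toR (dir l) := by
  unfold toR par
  apply Prod.ext <;> simp

lemma toR_injective : Function.Injective toR := by
  intro a b h
  unfold toR at h
  simp only [Prod.mk.injEq, Int.cast_inj] at h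
  exact Prod.ext h.1 h.2

/-- lattice points between two points of a lattice line -/
lemma onSeg_iff (l : LatLine) (i j : ℤ) (X : ℤ × ℤ) :
    OnSeg (par l i) (par l j) X ↔ ∃ k ∈ Set.uIcc i j, par l k = X := by
  unfold OnSeg
  rw [segment_eq_image_lineMap]
  constructor
  · rintro ⟨t, ht, hX⟩
    rw [AffineMap.lineMap_apply_module'] at hX
    rw [toR_par, toR_par] at hX
    have e1 : t • (toR (base l) + (j : ℝ) • toR (dir l) - (toR (base l) + (i : ℝ) • toR (dir l))) +
        (toR (base l) + (i : ℝ) • toR (dir l)) =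
        toR (base l) + (i + t * (j - i)) • toR (dir l) := by
      simp only [smul_add, smul_sub, add_smul, mul_smul, sub_smul, mul_sub]
      abel
    rw [e1] at hX
    obtain ⟨u, w, huw⟩ := dir_coprime l
    have hx1 : ((base l).1 : ℝ) + (i + t * (j - i)) * ((dir l).1 : ℝ) = (X.1 : ℝ) := by
      have := congrArg Prod.fst hX
      simpa [toR] using this
    have hx2 : ((base l).2 : ℝ) + (i + t * (j - i)) * ((dir l).2 : ℝ) = (X.2 : ℝ) := by
      have := congrArg Prod.snd hX
      simpa [toR] using this
    have huw' : (u : ℝ) * ((dir l).1 : ℝ) + (w : ℝ) * ((dir l).2 : ℝ) = 1 := by exact_mod_cast huw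
    set s : ℤ := u * (X.1 - (base l).1) + w * (X.2 - (base l).2) with hs
    have hsR : (s : ℝ) = i + t * (j - i) := by
      rw [hs]
      push_cast
      have f1 : (X.1 : ℝ) - ((base l).1 : ℝ) = (i + t * (j - i)) * ((dir l).1 : ℝ) := by linarith
      have f2 : (X.2 : ℝ) - ((base l).2 : ℝ) = (i + t * (j - i)) * ((dir l).2 : ℝ) := by linarith
      rw [f1, f2]
      calc (u : ℝ) * ((i + t * (j - i)) * ((dir l).1 : ℝ)) +
            w * ((i + t * (j - i)) * ((dir l).2 : ℝ))
          = (i + t * (j - i)) * ((u : ℝ) * ((dir l).1 : ℝ) + (w : ℝ) * ((dir l).2 : ℝ)) := by ring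
        _ = i + t * (j - i) := by rw [huw', mul_one]
    refine ⟨s, ?_, ?_⟩
    · rw [Set.mem_uIcc]
      rcases le_total i j with h | h
      · left
        have hR : (i : ℝ) ≤ j := by exact_mod_cast h
        constructor
        · have : (i : ℝ) ≤ s := by rw [hsR]; nlinarith [ht.1]
          exact_mod_cast this
        · have : (s : ℝ) ≤ j := by rw [hsR]; nlinarith [ht.2]
          exact_mod_cast this
      · right
        have hR : (j : ℝ) ≤ i := by exact_mod_cast h
        constructor
        · have : (j : ℝ) ≤ s := by rw [hsR]; nlinarith [ht.2]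
          exact_mod_cast this
        · have : (s : ℝ) ≤ i := by rw [hsR]; nlinarith [ht.1]
          exact_mod_cast this
    · apply toR_injective
      rw [toR_par, hsR, hX]
  · rintro ⟨k, hk, rfl⟩
    by_cases hij : i = j
    · subst hij
      simp only [Set.uIcc_self, Set.mem_singleton_iff] at hk
      subst hk
      exact ⟨0, by simp, by simp⟩
    · have hijR : (j : ℝ) - i ≠ 0 := by
        intro h
        apply hij
        have : (i : ℝ) = j := by linarith
        exact_mod_cast this
      refine ⟨((k : ℝ) - i) / (j - i), ?_, ?_⟩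
      · rw [Set.mem_uIcc] at hk
        rcases hk with ⟨h1, h2⟩ | ⟨h1, h2⟩
        · have h1R : (i : ℝ) ≤ k := by exact_mod_cast h1
          have h2R : (k : ℝ) ≤ j := by exact_mod_cast h2
          have h3 : (0 : ℝ) < j - i := lt_of_le_of_ne (by linarith) (Ne.symm hijR)
          constructor
          · apply div_nonneg <;> linarith
          · rw [div_le_one h3]; linarith
        · have h1R : (j : ℝ) ≤ k := by exact_mod_cast h1
          have h2R : (k : ℝ) ≤ i := by exact_mod_cast h2
          have h3 : (j : ℝ) - i < 0 := lt_of_le_of_ne (by linarith) hijR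
          constructor
          · apply div_nonneg_of_nonpos <;> linarith
          · rw [div_le_one_of_neg h3]; linarith
      · rw [AffineMap.lineMap_apply_module', toR_par, toR_par, toR_par]
        have e1 : toR (base l) + (j : ℝ) • toR (dir l) - (toR (base l) + (i : ℝ) • toR (dir l)) =
            ((j : ℝ) - i) • toR (dir l) := by
          rw [sub_smul]; abel
        rw [e1, smul_smul, div_mul_cancel₀ _ hijR, sub_smul]
        abel

/-- A winning segment gives a clear interval of a lattice line with many Maker points. -/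
lemma exists_of_hasWinningSegment {n : ℕ} (hn : 2 ≤ n) {M B : Finset (ℤ × ℤ)}
    (h : HasWinningSegment n M B) :
    ∃ l i j, clr par B l i j ∧ n ≤ cnt par M l i j := by
  obtain ⟨S, hSM, hScard, P, hP, Q, hQ, hS1, hS2⟩ := h
  have hPQ : P ≠ Q := by
    rintro rfl
    have : S ⊆ {P} := by
      intro X hX
      have := hS1 X hX
      unfold OnSeg at this
      rw [segment_same, Set.mem_singleton_iff] at this
      rw [mem_singleton]
      exact toR_injective this
    have := card_le_card this
    rw [card_singleton] at this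
    omega
  obtain ⟨l, i, j, hi, hj⟩ := par_ex P Q hPQ
  refine ⟨l, i, j, ?_, ?_⟩
  · intro k hk hkB
    apply hS2 _ hkB
    rw [← hi, ← hj, onSeg_iff]
    exact ⟨k, hk, rfl⟩
  · rw [← hScard]
    have hkey : ∀ X ∈ S, ∃ k ∈ Set.uIcc i j, par l k = X := by
      intro X hX
      have := hS1 X hX
      rw [← hi, ← hj, onSeg_iff] at this
      exact this
    exact card_le_cnt S M l i j (fun X hX => ⟨hSM hX, hkey X hX⟩)

end Pool.Agent.Work.MP_a77be0_co
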