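import Mathlib
import Pool.Agent.Work.MP_a77be0_co.Lattice

/-!
Breaker's strategy in the game: the finite statement.
-/

namespace Pool.Agent.Work.MP_a77be0_co

open Finset Classical

section wrappers

variable {V L : Type*} [dV : DecidableEq V] {p : L → ℤ → V}

lemma cnt_union_le' (A A' : Finset V) (l : L) (i j : ℤ) :
    cnt p (A ∪ A') l i j ≤ cnt p A l i j + cnt p A' l i j := by
  have h : dV = fun a b => propDecidable (a = b) := Subsingleton.elim _ _
  subst h
  exact cnt_union_le A A' l i j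

lemma reply' (hp : Geom p) {lam : ℝ} (hlam : 0 < lam) {S : ℕ} (c1 c2 : ℕ) {PB : ℝ}
    {M B : Finset V} {bd : L → Finset ℤ} {R : Finset (L × ℤ)} {J : Finset (L × ℤ × ℤ)}
    (h : PreInv hp lam S PB M B bd R J) :
    ∃ Y : Finset V, Disjoint Y (M ∪ B) ∧ Y.card ≤ c1 + 2 * c2 ∧
      Inv hp lam S c1 c2 PB M (B ∪ Y) bd R J := by
  have h : dV = fun a b => propDecidable (a = b) := Subsingleton.elim _ _
  subst h
  exact reply hp hlam c1 c2 (by assumption)

lemma makerStep' (hp : Geom p) {lam : ℝ} (hlam : 0 < lam) {θ : ℕ} (hθ : lam * θ ≤ 1)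
    (hθ2 : 2 ≤ θ) {S c1 c2 : ℕ} {PB : ℝ} (n : ℕ) (hc1 : 2 * lam * n ≤ c1)
    (hc2 : 10 * lam * n ≤ c2) {M B : Finset V} {bd : L → Finset ℤ} {R : Finset (L × ℤ)}
    {J : Finset (L × ℤ × ℤ)} (h : Inv hp lam S c1 c2 PB M B bd R J) (X : Finset V)
    (hX : Disjoint X (M ∪ B)) (hXn : X.card ≤ n)
    (hS : (M ∪ X).card + (M ∪ X).card ^ 2 ≤ S) :
    ∃ Y : Finset V, ∃ bd' R' J', Disjoint Y (M ∪ X ∪ B) ∧ θ * (θ - 1) * Y.card ≤ 2 * n ^ 2 ∧
      PreInv hp lam S (PB + 99 * n) (M ∪ X) (B ∪ Y) bd' R' J' := by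
  have h' : dV = fun a b => propDecidable (a = b) := Subsingleton.elim _ _
  subst h'
  exact makerStep hp hlam hθ hθ2 n hc1 hc2 h X hX hXn hS

end wrappers

/-- Breaker can always enlarge a set of free points to a set of prescribed size. -/
lemma exists_fill (A Y0 : Finset (ℤ × ℤ)) (hd : Disjoint Y0 A) (c : ℕ) (hc : Y0.card ≤ c) :
    ∃ Y : Finset (ℤ × ℤ), Disjoint Y A ∧ Y.card = c ∧ Y0 ⊆ Y := by
  have hcard : (A ∪ Y0).card ≤ A.card + c := (card_union_le _ _).trans (by omega)
  obtain ⟨t, ht1, ht2⟩ := Infinite.exists_superset_card_eq (A ∪ Y0) (A.card + c) hcard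
  refine ⟨t \ A, sdiff_disjoint, ?_, ?_⟩
  · rw [card_sdiff_of_subset (subset_union_left.trans ht1), ht2]
    omega
  · intro y hy
    rw [mem_sdiff]
    exact ⟨ht1 (mem_union_right _ hy), disjoint_left.mp hd hy⟩

lemma noWin_step {n : ℕ} {lam : ℝ} (hlam : 0 < lam) {Q : ℝ} {mt : ℕ}
    {M B X : Finset (ℤ × ℤ)} (hQ : Q < lam * ((n : ℝ) - mt))
    (hact : ∀ l i j, act par M B l i j → lam * (cnt par M l i j : ℝ) ≤ Q)
    (hno : ∀ l i j, clr par B l i j → cnt par M l i j < n)
    (hXc : X.card ≤ mt) :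
    ∀ l i j, clr par B l i j → cnt par (M ∪ X) l i j < n := by
  intro l i j hclr
  by_cases h : act par M B l i j
  · have h1 := hact l i j h
    have h2 := cnt_union_le' (p := par) M X l i j
    have h3 := cnt_le_card geom_par X l i j
    have h4 : lam * (cnt par M l i j : ℝ) < lam * ((n : ℝ) - mt) := lt_of_le_of_lt h1 hQ
    have h5 : (cnt par M l i j : ℝ) < (n : ℝ) - mt := lt_of_mul_lt_mul_left h4 hlam.le
    have h6 : (cnt par M l i j : ℝ) + mt < n := by linarith
    have h7 : cnt par M l i j + mt < n := by exact_mod_cast h6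
    omega
  · have hall : ∀ z, clr par B l i z → par l z ∈ M := by
      intro z hz
      by_contra hcon
      exact h ⟨hclr, z, hcon, hz⟩
    have heq : cnt par (M ∪ X) l i j = cnt par M l i j := by
      unfold cnt
      congr 1
      ext k
      simp only [mem_filter, mem_union]
      constructor
      · rintro ⟨h1, -⟩
        refine ⟨h1, hall k ?_⟩
        apply clr_sub hclr Set.left_mem_uIcc
        rw [← Finset.coe_uIcc]
        exact h1
      · rintro ⟨h1, h2⟩
        exact ⟨h1, Or.inl h2⟩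
    rw [heq]
    exact hno l i j hclr

/-- The parameters of the finite statement. -/
structure Params (m b : ℕ → ℕ) (n T t0 θ b1 c1 c2 : ℕ) (lam : ℝ) : Prop where
  mono : Monotone m
  hlam : 0 < lam
  hθ : lam * θ ≤ 1
  hθ2 : 2 ≤ θ
  hθn : θ < n
  ht0 : 1 ≤ t0
  hstart : t0 * m t0 ≤ θ
  hmT : m T ≤ n
  hc1 : 2 * lam * n ≤ c1
  hc2 : 10 * lam * n ≤ c2
  hb1 : ∀ y : ℕ, θ * (θ - 1) * y ≤ 2 * n ^ 2 → y ≤ b1
  hb : ∀ t, t0 ≤ t → t ≤ T → b1 + c1 + 2 * c2 ≤ b t
  hlog : Real.log (3 * (((n * (T + 1) + (n * (T + 1)) ^ 2 : ℕ) : ℝ)) ^ 2 *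
      (((n * (T + 1)) ^ 2 : ℕ) : ℝ) + 1) + Real.log (99 * n * ((T : ℝ) + 1) + 1) + lam <
      lam * ((n : ℝ) - m T)

lemma phase2 {m b : ℕ → ℕ} {n T t0 θ b1 c1 c2 : ℕ} {lam : ℝ}
    (P : Params m b n T t0 θ b1 c1 c2 lam) :
    ∀ k t : ℕ, ∀ M B : Finset (ℤ × ℤ), t0 ≤ t → t + k = T + 1 → M.card ≤ n * t →
      (∀ l i j, clr par B l i j → cnt par M l i j < n) →
      (∃ bd R J, Inv geom_par lam (n * (T + 1) + (n * (T + 1)) ^ 2) c1 c2 (99 * n * (t : ℝ))
        M B bd R J) →
      ¬ MakerForces m b n k t M B := by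
  intro k
  induction k with
  | zero =>
    intro t M B _ _ _ _ _ h
    exact h
  | succ k ih =>
    intro t M B ht htk hM hno hInv hforce
    obtain ⟨bd, R, J, hI⟩ := hInv
    obtain ⟨X, hX1, hX2, hX3⟩ := hforce
    have hn : 2 ≤ n := le_trans P.hθ2 P.hθn.le
    have htT : t ≤ T := by omega
    have hmt : m t ≤ m T := P.mono htT
    have hXn : X.card ≤ n := by rw [hX2]; exact hmt.trans P.hmT
    have hMN : M.card ≤ n * (T + 1) := hM.trans (Nat.mul_le_mul_left _ (by omega))
    have hMX : (M ∪ X).card ≤ n * (t + 1) := by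
      refine (card_union_le _ _).trans ?_
      rw [mul_add, mul_one]
      exact Nat.add_le_add hM hXn
    have hMXN : (M ∪ X).card ≤ n * (T + 1) := hMX.trans (Nat.mul_le_mul_left _ (by omega))
    have hact : ∀ l i j, act par M B l i j → lam * (cnt par M l i j : ℝ) ≤
        Real.log (3 * (((n * (T + 1) + (n * (T + 1)) ^ 2 : ℕ) : ℝ)) ^ 2 *
        (((n * (T + 1)) ^ 2 : ℕ) : ℝ) + 1) + Real.log (99 * n * ((T : ℝ) + 1) + 1) + lam := by
      intro l i j ha
      apply count_bound geom_par P.hlam hI.toPreInv _ _ _ _ ha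
      · have : (0 : ℝ) ≤ 3 * (((n * (T + 1) + (n * (T + 1)) ^ 2 : ℕ) : ℝ)) ^ 2 *
          (((n * (T + 1)) ^ 2 : ℕ) : ℝ) := by positivity
        linarith
      · have : (0 : ℝ) ≤ 99 * n * ((T : ℝ) + 1) := by positivity
        linarith
      · have h1 : (lns geom_par M).card ≤ (n * (T + 1)) ^ 2 :=
          (card_lns geom_par M).trans (Nat.pow_le_pow_left hMN 2)
        have h2 : ((lns geom_par M).card : ℝ) ≤ (((n * (T + 1)) ^ 2 : ℕ) : ℝ) := by
          exact_mod_cast h1
        have h3 := mul_le_mul_of_nonneg_left h2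
          (by positivity : (0 : ℝ) ≤ 3 * (((n * (T + 1) + (n * (T + 1)) ^ 2 : ℕ) : ℝ)) ^ 2)
        linarith
      · have h1 : (t : ℝ) ≤ T + 1 := by
          have : t ≤ T + 1 := by omega
          exact_mod_cast this
        have h2 := mul_le_mul_of_nonneg_left h1 (by positivity : (0 : ℝ) ≤ 99 * n)
        linarith
    have hno' : ∀ l i j, clr par B l i j → cnt par (M ∪ X) l i j < n :=
      noWin_step P.hlam P.hlog hact hno (by rw [hX2]; exact hmt)
    rcases hX3 with hwin | hX3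
    · obtain ⟨l, i, j, h1, h2⟩ := exists_of_hasWinningSegment hn hwin
      have := hno' l i j h1
      omega
    · obtain ⟨Y1, bd', R', J', hY11, hY12, hY13⟩ := makerStep' geom_par P.hlam P.hθ P.hθ2 n
        P.hc1 P.hc2 hI X hX1 hXn (Nat.add_le_add hMXN (Nat.pow_le_pow_left hMXN 2))
      obtain ⟨Y2, hY21, hY22, hY23⟩ := reply' geom_par P.hlam c1 c2 hY13
      have hdisj : Disjoint (Y1 ∪ Y2) (M ∪ X ∪ B) := by
        rw [disjoint_union_left]
        refine ⟨hY11, disjoint_of_subset_right ?_ hY21⟩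
        exact union_subset_union (Subset.refl _) subset_union_left
      have hcard : (Y1 ∪ Y2).card ≤ b t := by
        have h1 := card_union_le Y1 Y2
        have h2 := P.hb1 _ hY12
        have h3 := P.hb t ht htT
        omega
      obtain ⟨Y, hYd, hYc, hYs⟩ := exists_fill (M ∪ X ∪ B) (Y1 ∪ Y2) hdisj (b t) hcard
      refine ih (t + 1) (M ∪ X) (B ∪ Y) (by omega) (by omega) hMX ?_ ?_ (hX3 Y hYd hYc)
      · intro l i j hc
        exact hno' l i j (clr_mono subset_union_left hc)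
      · have e1 : (99 * n * ((t + 1 : ℕ) : ℝ)) = 99 * n * (t : ℝ) + 99 * n := by
          push_cast; ring
        rw [e1]
        refine ⟨bd', R', J', hY23.mono P.hlam.le ?_⟩
        rw [union_assoc]
        exact union_subset_union (Subset.refl _) hYs

lemma phase1 {m b : ℕ → ℕ} {n T t0 θ b1 c1 c2 : ℕ} {lam : ℝ}
    (P : Params m b n T t0 θ b1 c1 c2 lam) :
    ∀ k t : ℕ, ∀ M B : Finset (ℤ × ℤ), 1 ≤ t → t ≤ t0 → t + k = T + 1 →
      M.card + m t0 ≤ t * m t0 → ¬ MakerForces m b n k t M B := by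
  intro k
  induction k with
  | zero =>
    intro t M B _ _ _ _ h
    exact h
  | succ k ih =>
    intro t M B ht1 ht0 htk hM hforce
    obtain ⟨X, hX1, hX2, hX3⟩ := hforce
    have hn : 2 ≤ n := le_trans P.hθ2 P.hθn.le
    have hmt : X.card ≤ m t0 := by rw [hX2]; exact P.mono ht0
    have hMX : (M ∪ X).card ≤ t * m t0 := by
      have := card_union_le M X
      omega
    have hMX0 : (M ∪ X).card ≤ θ := by
      have h1 : t * m t0 ≤ t0 * m t0 := Nat.mul_le_mul_right _ ht0
      have h2 := P.hstart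
      omega
    have hno : ∀ l i j, cnt par (M ∪ X) l i j < n := by
      intro l i j
      have h1 := cnt_le_card geom_par (M ∪ X) l i j
      have h2 := P.hθn
      omega
    rcases hX3 with hwin | hX3
    · obtain ⟨l, i, j, h1, h2⟩ := exists_of_hasWinningSegment hn hwin
      have := hno l i j
      omega
    · rcases Nat.lt_or_ge t t0 with hlt | hge
      · obtain ⟨Y, hYd, hYc, -⟩ := exists_fill (M ∪ X ∪ B) ∅ (disjoint_empty_left _) (b t)
          (by simp)
        refine ih (t + 1) (M ∪ X) (B ∪ Y) (by omega) (by omega) (by omega) ?_ (hX3 Y hYd hYc)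
        rw [add_mul, one_mul]
        omega
      · have htt : t = t0 := le_antisymm ht0 hge
        subst htt
        have hθN : θ ≤ n * (T + 1) := by
          have h1 := P.hθn
          have h2 : n * 1 ≤ n * (T + 1) := Nat.mul_le_mul_left _ (by omega)
          omega
        have hMXN : (M ∪ X).card ≤ n * (T + 1) := hMX0.trans hθN
        have hPB : (0 : ℝ) ≤ 99 * n * ((t + 1 : ℕ) : ℝ) := by positivity
        have hinit := initial geom_par P.hlam.le P.hθ (S := n * (T + 1) + (n * (T + 1)) ^ 2) hPB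
          (M ∪ X) B hMX0 (Nat.add_le_add hMXN (Nat.pow_le_pow_left hMXN 2))
        obtain ⟨Y2, hY21, hY22, hY23⟩ := reply' geom_par P.hlam c1 c2 hinit
        have hcard : Y2.card ≤ b t := by
          have h3 := P.hb t (le_refl t) (by omega)
          omega
        obtain ⟨Y, hYd, hYc, hYs⟩ := exists_fill (M ∪ X ∪ B) Y2 hY21 (b t) hcard
        refine phase2 P k (t + 1) (M ∪ X) (B ∪ Y) (by omega) (by omega) ?_ ?_ ?_ (hX3 Y hYd hYc)
        · have h1 := P.hθn
          have h2 : n * 1 ≤ n * (t + 1) := Nat.mul_le_mul_left _ (by omega)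
          omega
        · intro l i j _
          exact hno l i j
        · exact ⟨_, _, _, hY23.mono P.hlam.le (union_subset_union (Subset.refl _) hYs)⟩

/-- The finite statement: with suitable parameters Maker cannot force a winning segment of `n`
points within `T` timesteps. -/
theorem not_makerForces {m b : ℕ → ℕ} {n T t0 θ b1 c1 c2 : ℕ} {lam : ℝ}
    (P : Params m b n T t0 θ b1 c1 c2 lam) : ¬ MakerForces m b n T 1 ∅ ∅ := by
  apply phase1 P T 1 ∅ ∅ (le_refl 1) P.ht0 (by omega)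
  simp

end Pool.Agent.Work.MP_a77be0_co
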