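import Mathlib
import Pool.Agent.Work.MP_a77be0_co.Game

/-!
Asymptotics: the choice of the parameters.
-/

namespace Pool.Agent.Work.MP_a77be0_co

open Filter

lemma ev_rpow {γ : ℝ} (hγ : 0 < γ) (C : ℝ) : ∀ᶠ n : ℕ in atTop, C ≤ (n : ℝ) ^ γ :=
  ((tendsto_rpow_atTop hγ).comp tendsto_natCast_atTop_atTop).eventually_ge_atTop C

lemma ev_log {γ : ℝ} (hγ : 0 < γ) {c : ℝ} (hc : 0 < c) :
    ∀ᶠ n : ℕ in atTop, Real.log n ≤ c * (n : ℝ) ^ γ := by
  have h := (isLittleO_log_rpow_atTop hγ).bound hc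
  have h2 := tendsto_natCast_atTop_atTop (R := ℝ) |>.eventually h
  filter_upwards [h2] with n hn
  have h3 : (0 : ℝ) ≤ (n : ℝ) ^ γ := Real.rpow_nonneg (Nat.cast_nonneg n) γ
  rw [Real.norm_of_nonneg h3] at hn
  exact (le_abs_self _).trans hn

lemma log_bound {n T : ℕ} {α : ℝ} (hα : 0 < α) (hn : 1 ≤ n)
    (hT : (T : ℝ) ≤ ((n : ℝ) + 1) ^ (1 / α)) :
    Real.log (3 * (((n * (T + 1) + (n * (T + 1)) ^ 2 : ℕ) : ℝ)) ^ 2 *
      (((n * (T + 1)) ^ 2 : ℕ) : ℝ) + 1) + Real.log (99 * n * ((T : ℝ) + 1) + 1) ≤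
    (Real.log 13 + Real.log 100 + 7 * (Real.log 2 + 1 / α * Real.log 2)) +
      7 * (1 + 1 / α) * Real.log n := by
  have hnR : (1 : ℝ) ≤ n := by exact_mod_cast hn
  have hTR : (0 : ℝ) ≤ T := Nat.cast_nonneg T
  set N : ℝ := n * ((T : ℝ) + 1) with hN
  have hN1 : 1 ≤ N := by rw [hN]; nlinarith
  have hc1 : ((n * (T + 1) + (n * (T + 1)) ^ 2 : ℕ) : ℝ) = N + N ^ 2 := by
    push_cast; ring
  have hc2 : (((n * (T + 1)) ^ 2 : ℕ) : ℝ) = N ^ 2 := by push_cast; ring
  have hc3 : 99 * (n : ℝ) * ((T : ℝ) + 1) + 1 = 99 * N + 1 := by rw [hN]; ring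
  rw [hc1, hc2, hc3]
  have hNpos : 0 < N := by linarith
  have e1 : 3 * (N + N ^ 2) ^ 2 * N ^ 2 + 1 ≤ 13 * N ^ 6 := by
    have h1 : N + N ^ 2 ≤ 2 * N ^ 2 := by nlinarith
    have h2 : (N + N ^ 2) ^ 2 ≤ (2 * N ^ 2) ^ 2 := by
      apply pow_le_pow_left₀ (by positivity) h1
    have h3 : (1 : ℝ) ≤ N ^ 6 := one_le_pow₀ hN1
    have h4 : (N + N ^ 2) ^ 2 * N ^ 2 ≤ (2 * N ^ 2) ^ 2 * N ^ 2 :=
      mul_le_mul_of_nonneg_right h2 (by positivity)
    have h5 : (2 * N ^ 2) ^ 2 * N ^ 2 = 4 * N ^ 6 := by ring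
    nlinarith
  have e2 : Real.log (3 * (N + N ^ 2) ^ 2 * N ^ 2 + 1) ≤ Real.log 13 + 6 * Real.log N := by
    calc Real.log (3 * (N + N ^ 2) ^ 2 * N ^ 2 + 1) ≤ Real.log (13 * N ^ 6) := by
          apply Real.log_le_log (by positivity) e1
      _ = Real.log 13 + 6 * Real.log N := by
          rw [Real.log_mul (by norm_num) (by positivity), Real.log_pow]
          norm_num
  have e3 : Real.log (99 * N + 1) ≤ Real.log 100 + Real.log N := by
    calc Real.log (99 * N + 1) ≤ Real.log (100 * N) := by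
          apply Real.log_le_log (by positivity)
          linarith
      _ = Real.log 100 + Real.log N := by
          rw [Real.log_mul (by norm_num) (by positivity)]
  have e4 : Real.log N ≤ Real.log n + (Real.log 2 + 1 / α * (Real.log 2 + Real.log n)) := by
    rw [hN, Real.log_mul (by positivity) (by positivity)]
    have h1 : (T : ℝ) + 1 ≤ 2 * (2 * (n : ℝ)) ^ (1 / α) := by
      have h2 : ((n : ℝ) + 1) ^ (1 / α) ≤ (2 * (n : ℝ)) ^ (1 / α) :=
        Real.rpow_le_rpow (by positivity) (by linarith) (by positivity)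
      have h3 : (1 : ℝ) ≤ ((n : ℝ) + 1) ^ (1 / α) :=
        Real.one_le_rpow (by linarith) (by positivity)
      linarith
    have h2 : Real.log ((T : ℝ) + 1) ≤ Real.log (2 * (2 * (n : ℝ)) ^ (1 / α)) :=
      Real.log_le_log (by positivity) h1
    have h3 : Real.log (2 * (2 * (n : ℝ)) ^ (1 / α)) =
        Real.log 2 + 1 / α * (Real.log 2 + Real.log n) := by
      have hpos : (0 : ℝ) < 2 * (n : ℝ) := by positivity
      rw [Real.log_mul (by norm_num) (Real.rpow_pos_of_pos hpos _).ne',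
        Real.log_rpow hpos, Real.log_mul (by norm_num) (by positivity)]
    linarith
  nlinarith

lemma burst_arith {n g y : ℕ} (hg : 1 ≤ g) (hθ : 2 ≤ n / g)
    (hy : (n / g) * (n / g - 1) * y ≤ 2 * n ^ 2) : y ≤ 16 * g ^ 2 := by
  obtain ⟨s, hs⟩ : ∃ s, n / g = s + 2 := ⟨n / g - 2, by omega⟩
  have h1 : n < (s + 3) * g := by
    have := Nat.lt_mul_of_div_lt (show n / g < s + 3 by omega) (by omega : 0 < g)
    rw [mul_comm] at this
    linarith
  rw [hs] at hy
  have e1 : s + 2 - 1 = s + 1 := by omega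
  rw [e1] at hy
  by_contra hcon
  push Not at hcon
  have h2 : n ^ 2 ≤ ((s + 3) * g) ^ 2 := Nat.pow_le_pow_left h1.le 2
  have h3 : (s + 2) * (s + 1) * (16 * g ^ 2 + 1) ≤ (s + 2) * (s + 1) * y :=
    Nat.mul_le_mul_left _ hcon
  have h4 : (s + 2) * (s + 1) * (16 * g ^ 2 + 1) ≤ 2 * ((s + 3) * g) ^ 2 := by
    calc (s + 2) * (s + 1) * (16 * g ^ 2 + 1) ≤ (s + 2) * (s + 1) * y := h3
      _ ≤ 2 * n ^ 2 := hy
      _ ≤ 2 * ((s + 3) * g) ^ 2 := by omega
  nlinarith [Nat.zero_le s, Nat.zero_le (s * g ^ 2), Nat.zero_le (s ^ 2 * g ^ 2),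
    Nat.zero_le (g ^ 2)]

/-- For positive exponents the game is never a Maker win. -/
theorem not_makerWin {rm rb : ℝ → ℕ → ℕ} (hrm : Rounding rm) (hrb : Rounding rb) {α β : ℝ}
    (hα : 0 < α) (hβ : 0 < β) : ¬ MakerWin (rm α) (rb β) := by
  rintro ⟨ε, hε, hev⟩
  obtain ⟨hmm, hmr⟩ := hrm α hα.le
  obtain ⟨hbm, hbr⟩ := hrb β hβ.le
  set η : ℝ := 1 / (4 * (1 + α)) with hη
  have hηpos : 0 < η := by rw [hη]; positivity
  set γ : ℝ := min (1 / 4) (η * β / 4) with hγ
  have hγpos : 0 < γ := by rw [hγ]; exact lt_min (by norm_num) (by positivity)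
  have hγ1 : γ ≤ 1 / 4 := min_le_left _ _
  have hγ2 : γ ≤ η * β / 4 := min_le_right _ _
  set A : ℝ := Real.log 13 + Real.log 100 + 7 * (Real.log 2 + 1 / α * Real.log 2) with hA
  set D : ℝ := 7 * (1 + 1 / α) with hD
  have hDpos : 0 < D := by rw [hD]; positivity
  set C : ℝ := 2 * (2 : ℝ) ^ (1 + α) with hC
  have hCpos : 0 < C := by rw [hC]; positivity
  have E0 : ∀ᶠ n : ℕ in atTop, (1 : ℕ) ≤ n := eventually_ge_atTop 1
  have E1 := ev_rpow hγpos 3
  have E2 := ev_rpow (show 0 < η * β / 2 by positivity) 39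
  have E3 := ev_rpow (show (0 : ℝ) < 1 / 4 by norm_num) (C + 5)
  have E4 := ev_log hγpos (show 0 < ε / (4 * D) by positivity)
  have E5 := ev_rpow hγpos (4 * (A + 1 + ε) / ε)
  obtain ⟨n, ⟨T, hT, hmT⟩, h0, h1, h2, h3, h4, h5⟩ :=
    (hev.and (E0.and (E1.and (E2.and (E3.and (E4.and E5)))))).exists
  have hforce : MakerForces (rm α) (rb β) n T 1 ∅ ∅ := hT.1
  have hT1 : 1 ≤ T := by
    rcases Nat.eq_zero_or_pos T with h | h
    · subst h
      exact absurd hforce id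
    · exact h
  have hnR : (1 : ℝ) ≤ n := by exact_mod_cast h0
  have hnpos : (0 : ℝ) < n := by linarith
  -- the quantity `g`
  set x : ℝ := (n : ℝ) ^ γ with hx
  obtain ⟨g, hg⟩ : ∃ g, g = ⌊x⌋₊ := ⟨_, rfl⟩
  have hxnn : 0 ≤ x := by linarith
  have hgx : (g : ℝ) ≤ x := by rw [hg]; exact Nat.floor_le hxnn
  have hxg : x < g + 1 := by rw [hg]; exact Nat.lt_floor_add_one x
  have hg3 : 3 ≤ g := by
    rw [hg]
    apply Nat.le_floor
    exact_mod_cast h1
  have hg3R : (3 : ℝ) ≤ g := by exact_mod_cast hg3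
  -- the quantity `z`
  set z : ℝ := (n : ℝ) ^ ((1 : ℝ) / 4) with hz
  have hxz : x ≤ z := Real.rpow_le_rpow_of_exponent_le hnR hγ1
  have hz4 : z ^ 4 = n := by
    rw [hz, ← Real.rpow_natCast, ← Real.rpow_mul hnpos.le]
    norm_num
  have hz5 : 5 ≤ z := by linarith
  have hgz : (g : ℝ) ≤ z := hgx.trans hxz
  have hθlow : z ^ 3 - 1 < ((n / g : ℕ) : ℝ) := by
    have e1 : n < (n / g + 1) * g := by
      have := Nat.lt_mul_of_div_lt (show n / g < n / g + 1 by omega) (by omega : 0 < g)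
      rw [mul_comm] at this
      linarith
    have e2 : (n : ℝ) < (((n / g : ℕ) : ℝ) + 1) * g := by exact_mod_cast e1
    have e3 : (((n / g : ℕ) : ℝ) + 1) * g ≤ (((n / g : ℕ) : ℝ) + 1) * z :=
      mul_le_mul_of_nonneg_left hgz (by positivity)
    have e4 : z ^ 3 * z < (((n / g : ℕ) : ℝ) + 1) * z := by
      calc z ^ 3 * z = n := by rw [← hz4]; ring
        _ < (((n / g : ℕ) : ℝ) + 1) * z := lt_of_lt_of_le e2 e3
    have e5 := lt_of_mul_lt_mul_right e4 (by linarith)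
    linarith
  have hz3 : 125 ≤ z ^ 3 := by
    have : (5 : ℝ) ^ 3 ≤ z ^ 3 := pow_le_pow_left₀ (by norm_num) hz5 3
    linarith
  have hθ2 : 2 ≤ n / g := by
    have : (2 : ℝ) < ((n / g : ℕ) : ℝ) := by linarith
    have : 2 < n / g := by exact_mod_cast this
    omega
  -- the starting time
  set y : ℝ := (n : ℝ) ^ η with hy
  have hy1 : 1 ≤ y := Real.one_le_rpow hnR hηpos.le
  obtain ⟨t0, ht0⟩ : ∃ t0, t0 = ⌈y⌉₊ := ⟨_, rfl⟩
  have hyt : y ≤ t0 := by rw [ht0]; exact Nat.le_ceil y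
  have hty : (t0 : ℝ) < y + 1 := by rw [ht0]; exact Nat.ceil_lt_add_one (by linarith)
  have ht01R : (1 : ℝ) ≤ t0 := hy1.trans hyt
  have ht01 : 1 ≤ t0 := by exact_mod_cast ht01R
  have hstart : ((t0 * rm α t0 : ℕ) : ℝ) ≤ C * z := by
    have e1 := (abs_le.mp (hmr t0 ht01).le).2
    have e2 : (1 : ℝ) ≤ (t0 : ℝ) ^ α := Real.one_le_rpow ht01R hα.le
    have e3 : (rm α t0 : ℝ) ≤ 2 * (t0 : ℝ) ^ α := by linarith
    have e4 : (t0 : ℝ) * (t0 : ℝ) ^ α = (t0 : ℝ) ^ (1 + α) := by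
      rw [Real.rpow_add (by linarith), Real.rpow_one]
    have e5 : (t0 : ℝ) ^ (1 + α) ≤ (2 * y) ^ (1 + α) :=
      Real.rpow_le_rpow (by linarith) (by linarith) (by linarith)
    have e6 : (2 * y) ^ (1 + α) = (2 : ℝ) ^ (1 + α) * z := by
      rw [Real.mul_rpow (by norm_num) (by linarith), hy, hz, ← Real.rpow_mul hnpos.le]
      congr 2
      rw [hη]
      field_simp
    calc ((t0 * rm α t0 : ℕ) : ℝ) = (t0 : ℝ) * (rm α t0 : ℝ) := by push_cast; ring
      _ ≤ (t0 : ℝ) * (2 * (t0 : ℝ) ^ α) := mul_le_mul_of_nonneg_left e3 (by linarith)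
      _ = 2 * ((t0 : ℝ) * (t0 : ℝ) ^ α) := by ring
      _ ≤ 2 * ((2 : ℝ) ^ (1 + α) * z) := by
          rw [e4, ← e6]
          linarith
      _ = C * z := by rw [hC]; ring
  have hmTn : (rm α T : ℝ) < n := by
    have : 0 < ε * n := by positivity
    linarith
  have hTR : (T : ℝ) ≤ ((n : ℝ) + 1) ^ (1 / α) := by
    have e1 := (abs_le.mp (hmr T hT1).le).1
    have e2 : (T : ℝ) ^ α ≤ n + 1 := by linarith
    have e3 : ((T : ℝ) ^ α) ^ (1 / α) ≤ ((n : ℝ) + 1) ^ (1 / α) :=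
      Real.rpow_le_rpow (by positivity) e2 (by positivity)
    rwa [← Real.rpow_mul (Nat.cast_nonneg T), mul_one_div_cancel hα.ne', Real.rpow_one] at e3
  have P : Params (rm α) (rb β) n T t0 (n / g) (16 * g ^ 2) (2 * g) (10 * g)
      ((g : ℝ) / n) := by
    refine ⟨hmm, by positivity, ?_, hθ2, Nat.div_lt_self (by omega) (by omega), ht01, ?_, ?_,
      ?_, ?_, ?_, ?_, ?_⟩
    · rw [div_mul_eq_mul_div, div_le_one hnpos]
      exact_mod_cast Nat.mul_div_le n g
    · have e1 : C * z ≤ z ^ 3 - 1 := by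
        have f1 : (C + 5) * z ≤ z * z := mul_le_mul_of_nonneg_right h3 (by linarith)
        have f2 : z * z * 1 ≤ z * z * z :=
          mul_le_mul_of_nonneg_left (by linarith) (mul_nonneg (by linarith) (by linarith))
        have f3 : z ^ 3 = z * z * z := by ring
        have f4 : (C + 5) * z = C * z + 5 * z := by ring
        linarith
      have e2 : ((t0 * rm α t0 : ℕ) : ℝ) ≤ ((n / g : ℕ) : ℝ) := by linarith
      exact_mod_cast e2
    · have : rm α T < n := by exact_mod_cast hmTn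
      exact this.le
    · push_cast
      rw [mul_assoc, div_mul_cancel₀ _ hnpos.ne']
    · push_cast
      rw [mul_assoc, div_mul_cancel₀ _ hnpos.ne']
    · intro q hq
      exact burst_arith (by omega) hθ2 hq
    · intro t ht _
      have e1 : rb β t0 ≤ rb β t := hbm ht
      have e2 := (abs_le.mp (hbr t0 ht01).le).1
      set w : ℝ := (n : ℝ) ^ (η * β / 2) with hw
      have e3 : w ^ 2 ≤ (t0 : ℝ) ^ β := by
        have e4 : w ^ 2 = y ^ β := by
          rw [hw, hy, ← Real.rpow_natCast, ← Real.rpow_mul hnpos.le, ← Real.rpow_mul hnpos.le]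
          congr 1
          push_cast
          ring
        rw [e4]
        exact Real.rpow_le_rpow (by linarith) hyt hβ.le
      have e5 : (g : ℝ) ^ 2 ≤ w := by
        calc (g : ℝ) ^ 2 ≤ x ^ 2 := pow_le_pow_left₀ (by positivity) hgx 2
          _ = (n : ℝ) ^ (2 * γ) := by
              rw [hx, ← Real.rpow_natCast, ← Real.rpow_mul hnpos.le]
              congr 1
              push_cast
              ring
          _ ≤ w := Real.rpow_le_rpow_of_exponent_le hnR (by linarith)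
      have e6 : (((16 * g ^ 2 + 2 * g + 2 * (10 * g) : ℕ)) : ℝ) ≤ (rb β t0 : ℝ) := by
        have f1 : (g : ℝ) ≤ (g : ℝ) ^ 2 := by
          rw [sq]
          exact le_mul_of_one_le_left (by linarith) (by linarith)
        have f2 : 39 * w ≤ w ^ 2 := by
          rw [sq]
          exact mul_le_mul_of_nonneg_right h2 (by linarith)
        push_cast
        linarith
      have e7 : 16 * g ^ 2 + 2 * g + 2 * (10 * g) ≤ rb β t0 := by exact_mod_cast e6
      exact e7.trans e1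
    · have e1 := log_bound hα h0 hTR
      rw [← hA, ← hD] at e1
      refine lt_of_le_of_lt (add_le_add_left e1 _) ?_
      have e2 : (g : ℝ) / n ≤ 1 := by
        rw [div_le_one hnpos]
        have f1 : (n : ℝ) = z * z ^ 3 := by rw [← hz4]; ring
        have f2 : z * 1 ≤ z * z ^ 3 := mul_le_mul_of_nonneg_left (by linarith) (by linarith)
        linarith
      have e3 : (g : ℝ) * ε ≤ (g : ℝ) / n * ((n : ℝ) - rm α T) := by
        have : ε * n ≤ (n : ℝ) - rm α T := by linarith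
        calc (g : ℝ) * ε = (g : ℝ) / n * (ε * n) := by field_simp
          _ ≤ (g : ℝ) / n * ((n : ℝ) - rm α T) := mul_le_mul_of_nonneg_left this (by positivity)
      have e4 : D * Real.log n ≤ ε / 4 * x := by
        calc D * Real.log n ≤ D * (ε / (4 * D) * x) := mul_le_mul_of_nonneg_left h4 hDpos.le
          _ = ε / 4 * x := by field_simp
      have e5 : A + 1 + ε ≤ ε / 4 * x := by
        rw [div_le_iff₀ hε] at h5
        linarith
      have e6 : (x - 1) * ε ≤ g * ε := mul_le_mul_of_nonneg_right (by linarith) hε.le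
      have e7 : 0 < ε * x := by positivity
      linarith
  exact not_makerForces P hforce

/-- The threshold exponent vanishes for positive exponents. -/
theorem betaC_eq_zero {rm rb : ℝ → ℕ → ℕ} (hrm : Rounding rm) (hrb : Rounding rb) {α : ℝ}
    (hα : 0 < α) : betaC rm rb α = 0 := by
  unfold betaC
  rw [sSup_eq_bot.mpr, ENNReal.bot_eq_zero]
  rintro x ⟨β, hβ, hwin, rfl⟩
  rcases hβ.eq_or_lt with h | h
  · rw [← h]
    simp
  · exact absurd hwin (not_makerWin hrm hrb hα h)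

end Pool.Agent.Work.MP_a77be0_co
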