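import Mathlib
import Pool.Agent.Work.MP_a77be0_co.Asym

/-!
The case `β = 0` is a Maker win, and rounding down or up are roundings.
-/

namespace Pool.Agent.Work.MP_a77be0_co

open Finset Filter

lemma row_collinear {a b k y : ℤ} (h1 : a ≤ k) (h2 : k ≤ b) : OnSeg (a, y) (b, y) (k, y) := by
  unfold OnSeg toR
  rw [segment_eq_image_lineMap]
  have h1R : (a : ℝ) ≤ k := by exact_mod_cast h1
  have h2R : (k : ℝ) ≤ b := by exact_mod_cast h2
  rcases eq_or_lt_of_le (h1R.trans h2R) with h | h
  · refine ⟨0, by simp, ?_⟩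
    rw [AffineMap.lineMap_apply_zero]
    have : (k : ℝ) = a := by linarith
    rw [this]
  · refine ⟨((k : ℝ) - a) / (b - a), ⟨div_nonneg (by linarith) (by linarith), ?_⟩, ?_⟩
    · rw [div_le_one (by linarith)]; linarith
    · have h3 : (b : ℝ) - a ≠ 0 := by linarith
      rw [AffineMap.lineMap_apply_module']
      apply Prod.ext
      · simp only [Prod.mk_sub_mk, sub_self, Prod.smul_mk, smul_eq_mul, mul_zero, Prod.mk_add_mk,
          zero_add]
        field_simp
        ring
      · simp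

lemma snd_of_onSeg {a b y : ℤ} {Y : ℤ × ℤ} (h : OnSeg (a, y) (b, y) Y) : Y.2 = y := by
  unfold OnSeg toR at h
  rw [segment_eq_image_lineMap] at h
  obtain ⟨t, -, ht⟩ := h
  rw [AffineMap.lineMap_apply_module'] at ht
  have := congrArg Prod.snd ht
  simp at this
  exact_mod_cast this.symm

/-- the first `q` points of the row `y` -/
def row (q : ℕ) (y : ℤ) : Finset (ℤ × ℤ) := (Finset.range q).image (fun k : ℕ => ((k : ℤ), y))

lemma card_row (q : ℕ) (y : ℤ) : (row q y).card = q := by
  unfold row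
  rw [card_image_of_injective, card_range]
  intro a b h
  simpa using h

lemma snd_of_mem_row {q : ℕ} {y : ℤ} {P : ℤ × ℤ} (h : P ∈ row q y) : P.2 = y := by
  unfold row at h
  rw [mem_image] at h
  obtain ⟨k, -, rfl⟩ := h
  rfl

lemma disjoint_row {q r : ℕ} {y z : ℤ} (h : y ≠ z) : Disjoint (row q y) (row r z) := by
  rw [disjoint_left]
  intro P h1 h2
  exact h ((snd_of_mem_row h1).symm.trans (snd_of_mem_row h2))

lemma row_mono {q r : ℕ} (h : q ≤ r) (y : ℤ) : row q y ⊆ row r y := by
  unfold row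
  exact image_subset_image (range_subset_range.mpr h)

lemma win_row {n : ℕ} (hn : 1 ≤ n) {y : ℤ} {M B : Finset (ℤ × ℤ)} (hM : row n y ⊆ M)
    (hB : ∀ Y ∈ B, Y.2 ≠ y) : HasWinningSegment n M B := by
  refine ⟨row n y, hM, card_row n y, ((0 : ℕ), y), ?_, ((n - 1 : ℕ), y), ?_, ?_, ?_⟩
  · unfold row
    rw [mem_image]
    exact ⟨0, mem_range.mpr (by omega), rfl⟩
  · unfold row
    rw [mem_image]
    exact ⟨n - 1, mem_range.mpr (by omega), rfl⟩
  · intro X hX
    unfold row at hX
    rw [mem_image] at hX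
    obtain ⟨k, hk, rfl⟩ := hX
    rw [mem_range] at hk
    apply row_collinear
    · simp
    · have : k ≤ n - 1 := by omega
      exact_mod_cast this
  · intro Y hY hseg
    exact hB Y hY (snd_of_onSeg hseg)

/-- Two turns suffice when Breaker has at most two points. -/
lemma forces_two {m b : ℕ → ℕ} {n t : ℕ} (hn : 1 ≤ n) (hb : b t ≤ 2)
    (hm : n ≤ m t / 3 + m (t + 1)) (hle : m t / 3 ≤ n) (M B : Finset (ℤ × ℤ)) :
    MakerForces m b n 2 t M B := by
  obtain ⟨y0, hy0⟩ : ∃ y0 : ℤ, ∀ P ∈ M ∪ B, P.2 < y0 := by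
    obtain ⟨y, hy⟩ := ((M ∪ B).image Prod.snd).bddAbove
    refine ⟨y + 1, fun P hP => ?_⟩
    have := hy (mem_coe.mpr (mem_image_of_mem Prod.snd hP))
    omega
  set q := m t / 3 with hq
  set X : Finset (ℤ × ℤ) := row q y0 ∪ (row q (y0 + 1) ∪ (row q (y0 + 2) ∪
    row (m t - 3 * q) (y0 + 3))) with hX
  have hXy : ∀ P ∈ X, y0 ≤ P.2 := by
    intro P hP
    rw [hX] at hP
    simp only [mem_union] at hP
    rcases hP with h | h | h | h <;> have := snd_of_mem_row h <;> omega
  have hXd : Disjoint X (M ∪ B) := by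
    rw [disjoint_left]
    intro P h1 h2
    have := hXy P h1
    have := hy0 P h2
    omega
  have hXc : X.card = m t := by
    rw [hX, card_union_of_disjoint, card_union_of_disjoint, card_union_of_disjoint, card_row,
      card_row, card_row, card_row]
    · omega
    · exact disjoint_row (by omega)
    · rw [disjoint_union_right]
      exact ⟨disjoint_row (by omega), disjoint_row (by omega)⟩
    · rw [disjoint_union_right, disjoint_union_right]
      exact ⟨disjoint_row (by omega), disjoint_row (by omega), disjoint_row (by omega)⟩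
  refine ⟨X, hXd, hXc, Or.inr ?_⟩
  intro Y hY hYc
  -- a row free of Breaker's points
  obtain ⟨i, hi, hiY⟩ : ∃ i ∈ Finset.range 3, ∀ P ∈ Y, P.2 ≠ y0 + (i : ℤ) := by
    by_contra hcon
    push Not at hcon
    have h1 : (Finset.range 3).card ≤ Y.card := by
      choose! f hf1 hf2 using hcon
      apply card_le_card_of_injOn f
      · intro i hi
        exact hf1 i (mem_coe.mp hi)
      · intro i hi j hj hij
        have e1 := hf2 i (mem_coe.mp hi)
        have e2 := hf2 j (mem_coe.mp hj)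
        rw [hij, e2] at e1
        omega
    rw [card_range, hYc] at h1
    omega
  have hrowX : row q (y0 + (i : ℤ)) ⊆ X := by
    rw [mem_range] at hi
    intro P hP
    rw [hX]
    simp only [mem_union]
    interval_cases i
    · left; simpa using hP
    · right; left; simpa using hP
    · right; right; left; simpa using hP
  have hBi : ∀ P ∈ B ∪ Y, P.2 ≠ y0 + (i : ℤ) := by
    intro P hP
    rw [mem_union] at hP
    rcases hP with h | h
    · have := hy0 P (mem_union_right _ h)
      omega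
    · exact hiY P h
  -- points of the row beyond the first `q`
  obtain ⟨X2, hX2d, hX2c, hX2s⟩ := exists_fill (M ∪ X ∪ (B ∪ Y))
    (row n (y0 + (i : ℤ)) \ row q (y0 + (i : ℤ))) (by
      rw [disjoint_left]
      intro P h1 h2
      rw [Finset.mem_sdiff] at h1
      have hPy := snd_of_mem_row h1.1
      rw [mem_union, mem_union] at h2
      rcases h2 with (h2 | h2) | h2
      · have := hy0 P (mem_union_left _ h2)
        omega
      · apply h1.2
        rw [hX] at h2
        rw [mem_range] at hi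
        simp only [mem_union] at h2
        rcases h2 with h | h | h | h
        · have := snd_of_mem_row h
          have : (i : ℤ) = 0 := by omega
          rw [this]; simpa using h
        · have := snd_of_mem_row h
          have : (i : ℤ) = 1 := by omega
          rw [this]; simpa using h
        · have := snd_of_mem_row h
          have : (i : ℤ) = 2 := by omega
          rw [this]; simpa using h
        · have := snd_of_mem_row h
          omega
      · exact hBi P h2 hPy) (m (t + 1)) (by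
      rw [card_sdiff_of_subset (row_mono hle _), card_row, card_row]
      omega)
  refine ⟨X2, hX2d, hX2c, Or.inl ?_⟩
  apply win_row hn (y := y0 + (i : ℤ)) _ hBi
  intro P hP
  rw [mem_union]
  by_cases h : P ∈ row q (y0 + (i : ℤ))
  · exact Or.inl (mem_union_right _ (hrowX h))
  · exact Or.inr (hX2s (Finset.mem_sdiff.mpr ⟨hP, h⟩))

lemma forces_later {m b : ℕ → ℕ} {n : ℕ} (hn : 1 ≤ n) : ∀ k t : ℕ, b (t + k) ≤ 2 →
    n ≤ m (t + k) / 3 + m (t + k + 1) → m (t + k) / 3 ≤ n → ∀ M B : Finset (ℤ × ℤ),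
    MakerForces m b n (k + 2) t M B := by
  intro k
  induction k with
  | zero =>
    intro t hb hm hle M B
    exact forces_two hn hb hm hle M B
  | succ k ih =>
    intro t hb hm hle M B
    obtain ⟨X, hX1, hX2, -⟩ := exists_fill (M ∪ B) ∅ (disjoint_empty_left _) (m t) (by simp)
    refine ⟨X, hX1, hX2, Or.inr fun Y _ _ => ?_⟩
    have e1 : t + 1 + k = t + (k + 1) := by omega
    exact ih (t + 1) (by rw [e1]; exact hb) (by rw [e1]; exact hm) (by rw [e1]; exact hle) _ _

/-- With `β = 0` and `α > 0` the game is a Maker win. -/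
theorem makerWin_zero {rm rb : ℝ → ℕ → ℕ} (hrm : Rounding rm) (hrb : Rounding rb) {α : ℝ}
    (hα : 0 < α) : MakerWin (rm α) (rb 0) := by
  obtain ⟨hmm, hmr⟩ := hrm α hα.le
  obtain ⟨hbm, hbr⟩ := hrb 0 le_rfl
  set ρ : ℝ := (11 / 10 : ℝ) ^ (1 / α) with hρ
  have hρ1 : 1 < ρ := Real.one_lt_rpow (by norm_num) (by positivity)
  have hρα : ρ ^ α = 11 / 10 := by
    rw [hρ, ← Real.rpow_mul (by norm_num), one_div_mul_cancel hα.ne', Real.rpow_one]
  have hα' : 0 < 1 / α := by positivity
  refine ⟨1 / 20, by norm_num, ?_⟩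
  have E1 := ev_rpow hα' (2 / (ρ - 1) / (4 / 5 : ℝ) ^ (1 / α))
  have E0 : ∀ᶠ n : ℕ in atTop, 1000 ≤ n := eventually_ge_atTop 1000
  filter_upwards [E1, E0] with n h1 h0
  have hnR : (1000 : ℝ) ≤ n := by exact_mod_cast h0
  set x : ℝ := (4 / 5 * (n : ℝ)) ^ (1 / α) with hx
  have hxα : x ^ α = 4 / 5 * (n : ℝ) := by
    rw [hx, ← Real.rpow_mul (by positivity), one_div_mul_cancel hα.ne', Real.rpow_one]
  have hx1 : 1 ≤ x := Real.one_le_rpow (by linarith) hα'.le
  have hx2 : x + 2 ≤ ρ * x := by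
    have e1 : x = (4 / 5 : ℝ) ^ (1 / α) * (n : ℝ) ^ (1 / α) := by
      rw [hx, Real.mul_rpow (by norm_num) (by positivity)]
    have e2 : 0 < (4 / 5 : ℝ) ^ (1 / α) := by positivity
    rw [div_le_iff₀ e2, mul_comm, ← e1, div_le_iff₀ (by linarith)] at h1
    linarith
  obtain ⟨t, ht⟩ : ∃ t, t = ⌈x⌉₊ := ⟨_, rfl⟩
  have hxt : x ≤ t := by rw [ht]; exact Nat.le_ceil x
  have htx : (t : ℝ) < x + 1 := by rw [ht]; exact Nat.ceil_lt_add_one (by linarith)
  have ht1 : 1 ≤ t := by
    have : (1 : ℝ) ≤ t := hx1.trans hxt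
    exact_mod_cast this
  have hlow : 4 / 5 * (n : ℝ) - 1 ≤ rm α t := by
    have e1 := (abs_le.mp (hmr t ht1).le).1
    have e2 : x ^ α ≤ (t : ℝ) ^ α := Real.rpow_le_rpow (by linarith) hxt hα.le
    linarith
  have hup : (rm α (t + 1) : ℝ) ≤ 88 / 100 * (n : ℝ) + 1 := by
    have e1 := (abs_le.mp (hmr (t + 1) (by omega)).le).2
    have e2 : ((t + 1 : ℕ) : ℝ) ^ α ≤ (ρ * x) ^ α := by
      apply Real.rpow_le_rpow (by positivity) _ hα.le
      push_cast
      linarith
    have e3 : (ρ * x) ^ α = 88 / 100 * (n : ℝ) := by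
      rw [Real.mul_rpow (by linarith) (by linarith), hρα, hxα]
      ring
    linarith
  have hmt : rm α t ≤ rm α (t + 1) := hmm (by omega)
  have hmtR : (rm α t : ℝ) ≤ rm α (t + 1) := by exact_mod_cast hmt
  obtain ⟨k, hk⟩ : ∃ k, t = 1 + k := ⟨t - 1, by omega⟩
  have hbt : rb 0 t ≤ 2 := by
    have e1 := (abs_le.mp (hbr t ht1).le).2
    rw [Real.rpow_zero] at e1
    have e2 : (rb 0 t : ℝ) ≤ 2 := by linarith
    exact_mod_cast e2
  have hq1 : (rm α t : ℝ) < 3 * ((rm α t / 3 : ℕ) : ℝ) + 3 := by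
    have : rm α t < 3 * (rm α t / 3) + 3 := by omega
    exact_mod_cast this
  have hforce : MakerForces (rm α) (rb 0) n (k + 2) 1 ∅ ∅ := by
    apply forces_later (by omega) k 1
    · rw [← hk]; exact hbt
    · rw [← hk]
      have e1 : (n : ℝ) ≤ ((rm α t / 3 + rm α (t + 1) : ℕ) : ℝ) := by
        push_cast
        linarith
      exact_mod_cast e1
    · rw [← hk]
      have e1 : (rm α t : ℝ) ≤ n := by linarith
      have e2 : rm α t ≤ n := by exact_mod_cast e1
      omega
  have hex : ∃ T, MakerForces (rm α) (rb 0) n T 1 ∅ ∅ := ⟨_, hforce⟩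
  classical
  refine ⟨Nat.find hex, ⟨Nat.find_spec hex, fun T hT => Nat.find_min' hex hT⟩, ?_⟩
  have hle : Nat.find hex ≤ t + 1 := by
    have := Nat.find_min' hex hforce
    omega
  have h2 : rm α (Nat.find hex) ≤ rm α (t + 1) := hmm hle
  have h3 : (rm α (Nat.find hex) : ℝ) ≤ rm α (t + 1) := by exact_mod_cast h2
  linarith

/-- Rounding down. -/
theorem rounding_floor : Rounding (fun a t => ⌊(t : ℝ) ^ a⌋₊) := by
  intro a ha
  refine ⟨?_, ?_⟩
  · intro s t hst
    apply Nat.floor_mono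
    exact Real.rpow_le_rpow (Nat.cast_nonneg s) (by exact_mod_cast hst) ha
  · intro t _
    have h0 : (0 : ℝ) ≤ (t : ℝ) ^ a := Real.rpow_nonneg (Nat.cast_nonneg t) a
    have h1 := Nat.floor_le h0
    have h2 := Nat.lt_floor_add_one ((t : ℝ) ^ a)
    rw [abs_lt]
    constructor <;> linarith

/-- Rounding up. -/
theorem rounding_ceil : Rounding (fun a t => ⌈(t : ℝ) ^ a⌉₊) := by
  intro a ha
  refine ⟨?_, ?_⟩
  · intro s t hst
    apply Nat.ceil_mono
    exact Real.rpow_le_rpow (Nat.cast_nonneg s) (by exact_mod_cast hst) ha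
  · intro t _
    have h0 : (0 : ℝ) ≤ (t : ℝ) ^ a := Real.rpow_nonneg (Nat.cast_nonneg t) a
    have h1 := Nat.le_ceil ((t : ℝ) ^ a)
    have h2 := Nat.ceil_lt_add_one h0
    rw [abs_lt]
    constructor <;> linarith

end Pool.Agent.Work.MP_a77be0_co
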